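import Mathlib

set_option autoImplicit false

namespace Pool.Agent.H532G2

open Subgroup

/-- commutator -/
def cm {G : Type} [Group G] (x y : G) : G := x * y * x⁻¹ * y⁻¹

theorem map_cm {G H : Type} [Group G] [Group H] (f : G →* H) (x y : G) :
    f (cm x y) = cm (f x) (f y) := by simp [cm]

theorem cm_eq_one {G : Type} [Group G] {x y : G} : cm x y = 1 ↔ Commute x y := by
  unfold cm
  rw [mul_inv_eq_one, mul_inv_eq_iff_eq_mul]
  exact Iff.rfl

/-- class at most 3 on finite subgroups, in commutator form -/
def PP (G : Type) [Group G] : Prop :=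
  ∀ F : Subgroup G, (F : Set G).Finite →
    ∀ x ∈ F, ∀ y ∈ F, ∀ z ∈ F, ∀ w ∈ F, cm (cm (cm x y) z) w = 1

/-- locally finite subgroup -/
def LFs {G : Type} [Group G] (N : Subgroup G) : Prop :=
  ∀ s : Set G, s.Finite → s ⊆ (N : Set G) → (closure s : Set G).Finite

/-- reduced: every normal locally finite subgroup is trivial -/
def Red (G : Type) [Group G] : Prop := ∀ N : Subgroup G, N.Normal → LFs N → N = ⊥

section lf
variable {G Q : Type} [Group G] [Group Q]

theorem LFs.mono {M N : Subgroup G} (h : LFs N) (hMN : M ≤ N) : LFs M :=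
  fun s hs hsM => h s hs (hsM.trans hMN)

theorem LFs.of_finite {M : Subgroup G} (h : (M : Set G).Finite) : LFs M := by
  intro s _ hsM
  exact h.subset (by
    have : closure s ≤ M := (closure_le M).2 hsM
    exact this)

/-- extension of locally finite by locally finite -/
theorem LFs.ext (f : G →* Q) (K : Subgroup G) (hM : LFs f.ker) (hK : LFs (K.map f)) : LFs K := by
  intro s hs hsK
  have h1 : ((closure s).map f : Set Q).Finite := by
    have : (closure s).map f = closure (f '' s) := by
      rw [MonoidHom.map_closure]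
    rw [this]
    apply hK _ (hs.image f)
    rintro _ ⟨x, hx, rfl⟩
    exact ⟨x, hsK hx, rfl⟩
  set H := closure s with hH
  let g : H →* Q := f.comp H.subtype
  have hr : (g.range : Set Q).Finite := by
    have : (g.range : Set Q) = (H.map f : Set Q) := by
      ext y; constructor
      · rintro ⟨x, rfl⟩; exact ⟨x.1, x.2, rfl⟩
      · rintro ⟨x, hx, rfl⟩; exact ⟨⟨x, hx⟩, rfl⟩
    rw [this]; exact h1
  have : Finite g.range := hr.to_subtype
  have : Group.FG H := by
    have : Finite s := hs.to_subtype
    exact (Group.fg_iff_subgroup_fg H).2 ⟨hs.toFinset, by simp [hH]⟩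
  have hfi : g.ker.FiniteIndex := by
    constructor
    rw [Subgroup.index_ker]
    exact Nat.card_pos.ne'
  have := hfi
  have hfg : Group.FG g.ker := Subgroup.fg_of_index_ne_zero g.ker
  have hfg2 : g.ker.FG := (Group.fg_iff_subgroup_fg _).1 hfg
  obtain ⟨t, ht⟩ := hfg2
  have hker : (g.ker : Set H).Finite := by
    have h2 := hM (((↑) : H → G) '' (t : Set H)) (t.finite_toSet.image _) (by
      rintro _ ⟨x, hx, rfl⟩
      have : x ∈ g.ker := by rw [← ht]; exact subset_closure hx
      exact this)
    have h3 : ((g.ker.map H.subtype : Subgroup G) : Set G).Finite := by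
      rw [← ht, MonoidHom.map_closure]
      exact h2
    have h4 : (g.ker : Set H) = ((↑) : H → G) ⁻¹' ((g.ker.map H.subtype : Subgroup G) : Set G) := by
      ext x; constructor
      · intro hx; exact ⟨x, hx, rfl⟩
      · rintro ⟨y, hy, hxy⟩
        have : y = x := Subtype.ext hxy
        rw [← this]; exact hy
    rw [h4]
    exact h3.preimage (Subtype.val_injective.injOn)
  have : Finite g.ker := hker.to_subtype
  have hfinH : Finite H := by
    have hc := Subgroup.card_mul_index g.ker
    have : Nat.card H ≠ 0 := by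
      rw [← hc]
      exact mul_ne_zero Nat.card_pos.ne' hfi.index_ne_zero
    exact Nat.finite_of_card_ne_zero this
  exact Set.toFinite _

/-- the maximal normal locally finite subgroup -/
theorem exists_max (G : Type) [Group G] :
    ∃ M : Subgroup G, M.Normal ∧ LFs M ∧ ∀ K : Subgroup G, K.Normal → LFs K → M ≤ K → K ≤ M := by
  have hz := zorn_le₀ {N : Subgroup G | N.Normal ∧ LFs N} (by
    intro c hc hchain
    by_cases hne : c.Nonempty
    · refine ⟨sSup c, ⟨?_, ?_⟩, fun z hz => le_sSup hz⟩
      · constructor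
        intro n hn g
        rw [Subgroup.mem_sSup_of_directedOn hne hchain.directedOn] at hn ⊢
        obtain ⟨K, hK, hnK⟩ := hn
        exact ⟨K, hK, (hc hK).1.conj_mem n hnK g⟩
      · intro s hs hsc
        have : ∃ K ∈ c, s ⊆ (K : Set G) := by
          induction s, hs using Set.Finite.induction_on with
          | empty => exact ⟨hne.some, hne.some_mem, Set.empty_subset _⟩
          | @insert a s ha hs ih =>
            obtain ⟨K, hK, hsK⟩ := ih ((Set.subset_insert a s).trans hsc)
            have ha' : a ∈ sSup c := hsc (Set.mem_insert a s)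
            rw [Subgroup.mem_sSup_of_directedOn hne hchain.directedOn] at ha'
            obtain ⟨L, hL, haL⟩ := ha'
            rcases hchain.total hK hL with h | h
            · exact ⟨L, hL, Set.insert_subset haL (hsK.trans h)⟩
            · exact ⟨K, hK, Set.insert_subset (h haL) hsK⟩
        obtain ⟨K, hK, hsK⟩ := this
        exact (hc hK).2 s hs hsK
    · refine ⟨⊥, ⟨inferInstance, LFs.of_finite (by simp)⟩, ?_⟩
      intro z hz
      exact absurd ⟨z, hz⟩ hne)
  obtain ⟨M, hM⟩ := hz
  exact ⟨M, hM.prop.1, hM.prop.2, fun K hK hK2 hMK => hM.le_of_ge ⟨hK, hK2⟩ hMK⟩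

theorem red_quot (M : Subgroup G) [M.Normal] (hM : LFs M)
    (hmax : ∀ K : Subgroup G, K.Normal → LFs K → M ≤ K → K ≤ M) : Red (G ⧸ M) := by
  intro N hN hLF
  have hk : (QuotientGroup.mk' M).ker = M := QuotientGroup.ker_mk' M
  have hmap : (N.comap (QuotientGroup.mk' M)).map (QuotientGroup.mk' M) = N :=
    Subgroup.map_comap_eq_self_of_surjective (QuotientGroup.mk'_surjective M) N
  have hK : LFs (N.comap (QuotientGroup.mk' M)) := by
    apply LFs.ext (QuotientGroup.mk' M)
    · rw [hk]; exact hM
    · rw [hmap]; exact hLF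
  have hle : M ≤ N.comap (QuotientGroup.mk' M) := by
    intro x hx
    have : (QuotientGroup.mk' M) x = 1 := by
      rw [← MonoidHom.mem_ker, hk]; exact hx
    rw [Subgroup.mem_comap, this]; exact N.one_mem
  have := hmax _ (hN.comap _) hK hle
  rw [eq_bot_iff, ← hmap]
  rintro _ ⟨x, hx, rfl⟩
  have hxM := this hx
  rw [Subgroup.mem_bot, ← MonoidHom.mem_ker, hk]; exact hxM

theorem PP_quot (M : Subgroup G) [M.Normal] (hM : LFs M) (hP : PP G) : PP (G ⧸ M) := by
  intro F hF x hx y hy z hz w hw
  have hk : (QuotientGroup.mk' M).ker = M := QuotientGroup.ker_mk' M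
  have hK : LFs (F.comap (QuotientGroup.mk' M)) := by
    apply LFs.ext (QuotientGroup.mk' M)
    · rw [hk]; exact hM
    · rw [Subgroup.map_comap_eq_self_of_surjective (QuotientGroup.mk'_surjective M) F]
      exact LFs.of_finite hF
  obtain ⟨x', rfl⟩ := QuotientGroup.mk'_surjective M x
  obtain ⟨y', rfl⟩ := QuotientGroup.mk'_surjective M y
  obtain ⟨z', rfl⟩ := QuotientGroup.mk'_surjective M z
  obtain ⟨w', rfl⟩ := QuotientGroup.mk'_surjective M w
  have hfin := hK {x', y', z', w'} (by simp) (by
    intro g hg
    simp only [Set.mem_insert_iff, Set.mem_singleton_iff] at hg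
    rcases hg with rfl | rfl | rfl | rfl <;> assumption)
  have h := hP _ hfin x' (subset_closure (by simp)) y' (subset_closure (by simp))
    z' (subset_closure (by simp)) w' (subset_closure (by simp))
  rw [← map_cm, ← map_cm, ← map_cm, h, map_one]

theorem PP_sub (H : Subgroup G) (hP : PP G) : PP H := by
  intro F hF x hx y hy z hz w hw
  have hf : ((F.map H.subtype : Subgroup G) : Set G).Finite := by
    rw [Subgroup.coe_map]; exact hF.image _
  have h := hP _ hf x ⟨x, hx, rfl⟩ y ⟨y, hy, rfl⟩ z ⟨z, hz, rfl⟩ w ⟨w, hw, rfl⟩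
  apply Subtype.ext
  simpa [cm] using h

/-- reduction theorem -/
theorem reduce {n : ℕ} (R : Set (FreeGroup (Fin n)))
    (hmain : ∀ (Q : Type) [Group Q], IsPGroup 2 Q → PP Q → Red Q → ∀ s : Fin n → Q,
      (∀ w ∈ R, FreeGroup.lift s w = 1) → closure (Set.range s) = ⊤ → Finite Q) :
    ∀ (G : Type) [Group G], IsPGroup 2 G → PP G → ∀ s : Fin n → G,
      (∀ w ∈ R, FreeGroup.lift s w = 1) → (closure (Set.range s) : Set G).Finite := by
  intro G _ h2 hP s hs
  set H := closure (Set.range s) with hH
  let s' : Fin n → H := fun i => ⟨s i, subset_closure ⟨i, rfl⟩⟩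
  obtain ⟨M, hMn, hMl, hmax⟩ := exists_max H
  have := hMn
  have hlift : ∀ w, (FreeGroup.lift s' w : H).1 = FreeGroup.lift s w := by
    intro w
    have : H.subtype.comp (FreeGroup.lift s') = FreeGroup.lift s := by
      ext i; simp [s']
    rw [← this]; rfl
  have hs' : ∀ w ∈ R, FreeGroup.lift s' w = 1 := by
    intro w hw
    apply Subtype.ext
    rw [hlift, hs w hw]; rfl
  let s'' : Fin n → H ⧸ M := fun i => QuotientGroup.mk' M (s' i)
  have hlift2 : ∀ w, FreeGroup.lift s'' w = QuotientGroup.mk' M (FreeGroup.lift s' w) := by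
    intro w
    have : (QuotientGroup.mk' M).comp (FreeGroup.lift s') = FreeGroup.lift s'' := by
      ext i; simp [s'']
    rw [← this]; rfl
  have hcl : closure (Set.range s') = ⊤ := by
    have h1 : (closure (Set.range s')).map H.subtype = H := by
      rw [MonoidHom.map_closure, ← Set.range_comp]
      exact hH.symm
    rw [eq_top_iff]
    intro x _
    have : (x : G) ∈ (closure (Set.range s')).map H.subtype := by rw [h1]; exact x.2
    obtain ⟨y, hy, hyx⟩ := this
    have : y = x := Subtype.ext hyx
    rw [← this]; exact hy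
  have hfin : Finite (H ⧸ M) := by
    apply hmain (H ⧸ M) ((h2.to_subgroup H).to_quotient M) (PP_quot M hMl (PP_sub H hP))
      (red_quot M hMl hmax) s''
    · intro w hw
      rw [hlift2, hs' w hw, map_one]
    · have : Set.range s'' = QuotientGroup.mk' M '' Set.range s' := by
        rw [← Set.range_comp]; rfl
      rw [this, ← MonoidHom.map_closure, hcl, ← MonoidHom.range_eq_map]
      exact MonoidHom.range_eq_top.2 (QuotientGroup.mk'_surjective M)
  have hLF : LFs (⊤ : Subgroup H) := by
    apply LFs.ext (QuotientGroup.mk' M)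
    · rw [QuotientGroup.ker_mk']; exact hMl
    · exact LFs.of_finite (Set.toFinite _)
  have h3 := hLF (Set.range s') (Set.finite_range s') (fun _ _ => trivial)
  rw [hcl] at h3
  have : Finite H := by
    have h4 : (Set.univ : Set H).Finite := by simpa using h3
    exact Set.finite_univ_iff.1 h4
  exact Set.toFinite _

end lf

end Pool.Agent.H532G2
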