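import Pool.Agent.H532G2.L2

set_option autoImplicit false

namespace Pool.Agent.H532G2

open Subgroup

theorem lemV (Q : Type) [Group Q] (h2 : IsPGroup 2 Q) (hP : PP Q) (hR : Red Q)
    {a b c x : Q} {S : Set Q} (hS : closure S = ⊤)
    (hS2 : ∀ g ∈ S, g = a ∨ g = b ∨ g = c)
    (ha : a * a = 1) (hb : b * b = 1) (hc : c * c = 1) (hx : x * x = 1)
    (hxa : Commute x a) (hxb : Commute x b) :
    (cm x c * cm x c = 1 ∧ Commute (cm x c) x ∧ Commute (cm x c) c) ∧
    (cm (cm x c) a * cm (cm x c) a = 1 ∧ Commute (cm (cm x c) a) x ∧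
      Commute (cm (cm x c) a) a ∧ Commute (cm (cm x c) a) c) ∧
    (cm (cm x c) b * cm (cm x c) b = 1 ∧ Commute (cm (cm x c) b) x ∧
      Commute (cm (cm x c) b) b ∧ Commute (cm (cm x c) b) c) := by
  have hcen : ∀ y : Q, Commute y a → Commute y b → Commute y c → y = 1 := by
    intro y h1 h3 h4
    apply central_one' h2 hR hS
    intro g hg
    rcases hS2 g hg with rfl | rfl | rfl <;> assumption
  have f1 := lemL2 Q h2 hP hx ha hc hxa
  have f2 := lemL2 Q h2 hP hx hb hc hxb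
  have m1 : x ∈ closure {x, a, c} := subset_closure (by simp)
  have m2 : a ∈ closure {x, a, c} := subset_closure (by simp)
  have m3 : c ∈ closure {x, a, c} := subset_closure (by simp)
  have n1 : x ∈ closure {x, b, c} := subset_closure (by simp)
  have n2 : b ∈ closure {x, b, c} := subset_closure (by simp)
  have n3 : c ∈ closure {x, b, c} := subset_closure (by simp)
  have u1 : cm (cm x c) c = 1 := hcen _ (pp_use hP f1 m1 m3 m3 m2) (pp_use hP f2 n1 n3 n3 n2)
    (pp_use hP f1 m1 m3 m3 m3)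
  have tc : Commute (cm x c) c := cm_eq_one.1 u1
  have ht : cm x c = (x * c) ^ 2 := cm_invol hx hc
  have htt : cm x c * cm x c = 1 := by
    rw [ht]; exact sq_of_comm hx hc (by rw [← ht]; exact tc)
  have tx : Commute (cm x c) x := by
    rw [ht]; exact comm_l hx hc (by rw [← ht]; exact htt)
  refine ⟨⟨htt, tx, tc⟩, ⟨?_, ?_, ?_, ?_⟩, ⟨?_, ?_, ?_, ?_⟩⟩
  · rw [cm_invol htt ha]
    apply sq_of_comm htt ha
    rw [← cm_invol htt ha]; exact pp_use hP f1 m1 m3 m2 m2
  · exact pp_use hP f1 m1 m3 m2 m1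
  · exact pp_use hP f1 m1 m3 m2 m2
  · exact pp_use hP f1 m1 m3 m2 m3
  · rw [cm_invol htt hb]
    apply sq_of_comm htt hb
    rw [← cm_invol htt hb]; exact pp_use hP f2 n1 n3 n2 n2
  · exact pp_use hP f2 n1 n3 n2 n1
  · exact pp_use hP f2 n1 n3 n2 n2
  · exact pp_use hP f2 n1 n3 n2 n3

/-- letters of the chain -/
def lt {Q : Type} (a b c : Q) (n : ℕ) : Q :=
  if n % 3 = 0 then b else if n % 3 = 1 then a else c

/-- the chain -/
def ch {Q : Type} [Group Q] (a b c y : Q) : ℕ → Q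
  | 0 => y
  | n + 1 => cm (ch a b c y n) (lt a b c n)

theorem lt_add3 {Q : Type} (a b c : Q) (n : ℕ) : lt a b c (n + 3) = lt a b c n := by
  unfold lt; rw [Nat.add_mod_right]

theorem lt_cases {Q : Type} (a b c : Q) (m i : ℕ) :
    lt a b c m = lt a b c i ∨ lt a b c m = lt a b c (i + 1) ∨ lt a b c m = lt a b c (i + 2) := by
  have h : m % 3 = i % 3 ∨ m % 3 = (i + 1) % 3 ∨ m % 3 = (i + 2) % 3 := by omega
  unfold lt
  rcases h with h | h | h
  · left; rw [h]
  · right; left; rw [h]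
  · right; right; rw [h]

theorem lt_gen {Q : Type} (a b c g : Q) (hg : g = a ∨ g = b ∨ g = c) (i : ℕ) :
    g = lt a b c (i + 1) ∨ g = lt a b c (i + 2) ∨ g = lt a b c i := by
  have h : ∃ m, g = lt a b c m := by
    rcases hg with rfl | rfl | rfl
    · exact ⟨1, rfl⟩
    · exact ⟨0, rfl⟩
    · exact ⟨2, rfl⟩
  obtain ⟨m, rfl⟩ := h
  rcases lt_cases a b c m i with h | h | h
  · exact Or.inr (Or.inr h)
  · exact Or.inl h
  · exact Or.inr (Or.inl h)

theorem lt_sq {Q : Type} [Group Q] {a b c : Q} (ha : a * a = 1) (hb : b * b = 1) (hc : c * c = 1)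
    (n : ℕ) : lt a b c n * lt a b c n = 1 := by
  unfold lt; split_ifs <;> assumption

theorem lemChain (Q : Type) [Group Q] (h2 : IsPGroup 2 Q) (hP : PP Q) (hR : Red Q)
    {a b c y : Q} {S : Set Q} (hS : closure S = ⊤)
    (hS2 : ∀ g ∈ S, g = a ∨ g = b ∨ g = c)
    (ha : a * a = 1) (hb : b * b = 1) (hc : c * c = 1) (hy : y * y = 1)
    (hya : Commute y a) (hyc : Commute y c) (hybc : Commute (cm y b) c) : y = 1 := by
  obtain ⟨l, hl⟩ : ∃ l : ℕ → Q, l = lt a b c := ⟨_, rfl⟩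
  obtain ⟨X, hX⟩ : ∃ X : ℕ → Q, X = ch a b c y := ⟨_, rfl⟩
  have l3 : ∀ n, l (n + 3) = l n := fun n => by rw [hl]; exact lt_add3 _ _ _ n
  have lc : ∀ m i, l m = l i ∨ l m = l (i + 1) ∨ l m = l (i + 2) := fun m i => by
    rw [hl]; exact lt_cases a b c m i
  have lsq : ∀ n, l n * l n = 1 := fun n => by rw [hl]; exact lt_sq ha hb hc n
  have lg : ∀ g ∈ S, ∀ i, g = l (i + 1) ∨ g = l (i + 2) ∨ g = l i := fun g hg i => by
    rw [hl]; exact lt_gen a b c g (hS2 g hg) i
  have l0 : l 0 = b := by rw [hl]; rfl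
  have l1 : l 1 = a := by rw [hl]; rfl
  have l2 : l 2 = c := by rw [hl]; rfl
  have X0 : X 0 = y := by rw [hX]; rfl
  have Xs : ∀ n, X (n + 1) = cm (X n) (l n) := fun n => by rw [hX, hl]; rfl
  have V : ∀ n, X n * X n = 1 → Commute (X n) (l (n + 1)) → Commute (X n) (l (n + 2)) →
      X (n + 1) * X (n + 1) = 1 ∧ Commute (X (n + 1)) (X n) ∧ Commute (X (n + 1)) (l n) ∧
      X (n + 2) * X (n + 2) = 1 ∧ Commute (X (n + 2)) (l n) ∧
      Commute (X (n + 2)) (l (n + 1)) := by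
    intro n h1 h3 h4
    obtain ⟨⟨v1, v2, v3⟩, ⟨v4, v5, v6, v7⟩, _⟩ := lemV Q h2 hP hR hS (fun g hg => lg g hg n)
      (lsq (n + 1)) (lsq (n + 2)) (lsq n) h1 h3 h4
    rw [← Xs] at v1 v2 v3 v4 v5 v6 v7
    rw [← Xs] at v4 v5 v6 v7
    exact ⟨v1, v2, v3, v4, v7, v6⟩
  have inv : ∀ n, (X n * X n = 1 ∧ Commute (X n) (l (n + 1)) ∧ Commute (X n) (l (n + 2))) ∧
      (X (n + 1) * X (n + 1) = 1 ∧ Commute (X (n + 1)) (l (n + 2)) ∧
        Commute (X (n + 1)) (l (n + 3))) := by
    intro n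
    induction n with
    | zero =>
      have a1 : X 0 * X 0 = 1 := by rw [X0]; exact hy
      have a2 : Commute (X 0) (l (0 + 1)) := by rw [X0, zero_add, l1]; exact hya
      have a3 : Commute (X 0) (l (0 + 2)) := by rw [X0, zero_add, l2]; exact hyc
      obtain ⟨v1, v2, v3, _⟩ := V 0 a1 a2 a3
      refine ⟨⟨a1, a2, a3⟩, v1, ?_, ?_⟩
      · rw [Xs, X0, zero_add, l2, l0]; exact hybc
      · rw [l3]; exact v3
    | succ n ih =>
      obtain ⟨⟨a1, a2, a3⟩, ⟨b1, b2, b3⟩⟩ := ih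
      obtain ⟨v1, v2, v3, v4, v5, v6⟩ := V n a1 a2 a3
      refine ⟨⟨b1, b2, b3⟩, v4, ?_, ?_⟩
      · rw [show n + 1 + 2 = n + 3 from rfl, l3]; exact v5
      · rw [show n + 1 + 3 = (n + 1) + 3 from rfl, l3]; exact v6
  have Xsq : ∀ n, X n * X n = 1 := fun n => (inv n).1.1
  have Xa : ∀ n, Commute (X n) (l (n + 1)) := fun n => (inv n).1.2.1
  have Xb : ∀ n, Commute (X n) (l (n + 2)) := fun n => (inv n).1.2.2
  have X1 : ∀ n, Commute (X (n + 1)) (X n) := fun n => (V n (Xsq n) (Xa n) (Xb n)).2.1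
  have Xcm : ∀ n, l n * X n * l n = X n * X (n + 1) := by
    intro n
    rw [Xs, cm_invol (Xsq n) (lsq n), pow_two]
    have e : ∀ z : Q, X n * (X n * z) = z := fun z => by rw [← mul_assoc, Xsq, one_mul]
    simp only [mul_assoc, e]
  have Xfix : ∀ n g, g * g = 1 → Commute (X n) g → g * X n * g = X n := by
    intro n g hg h
    rw [← h.eq, mul_assoc, hg, mul_one]
  have lX : ∀ m i, l m * X i * l m = X i ∨ l m * X i * l m = X i * X (i + 1) := by
    intro m i
    rcases lc m i with h | h | h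
    · right; rw [h]; exact Xcm i
    · left; apply Xfix i _ (lsq m); rw [h]; exact Xa i
    · left; apply Xfix i _ (lsq m); rw [h]; exact Xb i
  have comm : ∀ d, (∀ i, Commute (X i) (X (i + d))) ∧ (∀ i, Commute (X i) (X (i + d + 1))) := by
    intro d
    induction d with
    | zero => exact ⟨fun i => Commute.refl _, fun i => (X1 i).symm⟩
    | succ d ih =>
      refine ⟨ih.2, ?_⟩
      intro i
      obtain ⟨p, hp⟩ : ∃ p, p = l (i + d + 1) := ⟨_, rfl⟩
      have hpp : p * p = 1 := by rw [hp]; exact lsq _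
      have hpy : ∀ z : Q, p * (p * z) = z := fun z => by rw [← mul_assoc, hpp, one_mul]
      obtain ⟨Z, hZ⟩ : ∃ Z, Z = X (i + d + 1) := ⟨_, rfl⟩
      have hZZ : Z * Z = 1 := by rw [hZ]; exact Xsq _
      have h1 : X (i + (d + 1) + 1) = Z * (p * Z * p) := by
        have : X (i + (d + 1) + 1) = cm Z p := by rw [hZ, hp]; exact Xs (i + d + 1)
        rw [this, cm_invol hZZ hpp, pow_two]; simp only [mul_assoc]
      have hiZ : Commute (X i) Z := by rw [hZ]; exact ih.2 i
      have hi1Z : Commute (X (i + 1)) Z := by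
        rw [hZ, show i + d + 1 = (i + 1) + d by ring]; exact ih.1 (i + 1)
      have h3 : Commute (p * X i * p) Z := by
        rcases lX (i + d + 1) i with h | h
        · rw [hp, h]; exact hiZ
        · rw [hp, h]; exact hiZ.mul_left hi1Z
      have h4 : Commute (X i) (p * Z * p) := by
        have e1 : X i * (p * Z * p) = p * ((p * X i * p) * Z) * p := by
          simp only [mul_assoc, hpy]
        have e2 : (p * Z * p) * X i = p * (Z * (p * X i * p)) * p := by
          simp only [mul_assoc, hpp, mul_one]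
        unfold Commute SemiconjBy
        rw [e1, e2, h3.eq]
      rw [h1]
      exact hiZ.mul_right h4
  have commall : ∀ i j, Commute (X i) (X j) := by
    intro i j
    rcases le_total i j with h | h
    · obtain ⟨d, rfl⟩ := Nat.exists_eq_add_of_le h
      exact (comm d).1 i
    · obtain ⟨d, rfl⟩ := Nat.exists_eq_add_of_le h
      exact ((comm d).1 j).symm
  have hfin := abel_gens_one h2 hR hS (T := Set.range X) (by
    intro g hg
    rcases hS2 g hg with rfl | rfl | rfl <;> assumption) (by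
    rintro g hg _ ⟨i, rfl⟩
    have : ∃ m, g = l m := by
      rcases lg g hg i with h | h | h
      · exact ⟨_, h⟩
      · exact ⟨_, h⟩
      · exact ⟨_, h⟩
    obtain ⟨m, rfl⟩ := this
    rcases lX m i with h | h
    · rw [h]; exact subset_closure ⟨i, rfl⟩
    · rw [h]; exact mul_mem (subset_closure ⟨i, rfl⟩) (subset_closure ⟨i + 1, rfl⟩)) (by
    rintro _ ⟨i, rfl⟩ _ ⟨j, rfl⟩
    exact commall i j)
  rw [← X0]
  exact hfin _ ⟨0, rfl⟩

end Pool.Agent.H532G2
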