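import Pool.Agent.H532G2.L4

set_option autoImplicit false

namespace Pool.Agent.H532G2

open Subgroup

/-- a reduced 2-group satisfying PP has no involutions -/
theorem no_invol (Q : Type) [Group Q] (h2 : IsPGroup 2 Q) (hP : PP Q) (hR : Red Q)
    {a : Q} (ha : a * a = 1) : a = 1 := by
  obtain ⟨I, hI⟩ : ∃ I : Set Q, I = {x | x * x = 1} := ⟨_, rfl⟩
  have hIn : ∀ g i : Q, i ∈ I → g * i * g⁻¹ ∈ I := by
    intro g i hi
    rw [hI] at hi ⊢
    change i * i = 1 at hi
    change g * i * g⁻¹ * (g * i * g⁻¹) = 1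
    have : g * i * g⁻¹ * (g * i * g⁻¹) = g * (i * i) * g⁻¹ := by group
    rw [this, hi]; simp
  obtain ⟨Z, hZ⟩ : ∃ Z : Subgroup Q, Z = closure I ⊓ centralizer I := ⟨_, rfl⟩
  have mI : ∀ {x : Q}, x * x = 1 → x ∈ I := by
    intro x hx; rw [hI]; exact hx
  have hZc : ∀ z ∈ Z, ∀ x ∈ closure I, Commute z x := by
    intro z hz x hx
    rw [hZ] at hz
    have hz2 := hz.2
    induction hx using closure_induction with
    | mem y hy => exact (mem_centralizer_iff.1 hz2 y hy).symm
    | one => exact Commute.one_right z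
    | mul a b _ _ ha hb => exact ha.mul_right hb
    | inv a _ ha => exact ha.inv_right
  have hZn : Z.Normal := by
    constructor
    intro z hz g
    rw [hZ] at hz ⊢
    constructor
    · have hn : (closure I).Normal := by
        constructor
        intro n hn g
        induction hn using closure_induction with
        | mem y hy => exact subset_closure (hIn g y hy)
        | one => simp
        | mul a b _ _ ha hb =>
          have : g * (a * b) * g⁻¹ = (g * a * g⁻¹) * (g * b * g⁻¹) := by group
          rw [this]; exact mul_mem ha hb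
        | inv a _ ha =>
          have : g * a⁻¹ * g⁻¹ = (g * a * g⁻¹)⁻¹ := by group
          rw [this]; exact inv_mem ha
      exact hn.conj_mem z hz.1 g
    · change g * z * g⁻¹ ∈ centralizer I
      rw [mem_centralizer_iff]
      intro i hi
      have h1 := hIn g⁻¹ i hi
      have h3 := mem_centralizer_iff.1 hz.2 _ h1
      rw [inv_inv] at h3
      calc i * (g * z * g⁻¹) = g * ((g⁻¹ * i * g) * z) * g⁻¹ := by group
        _ = g * (z * (g⁻¹ * i * g)) * g⁻¹ := by rw [h3]
        _ = g * z * g⁻¹ * i := by group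
  have hZ1 : Z = ⊥ := abel_one h2 hR Z hZn (by
    intro x hx y hy
    apply hZc x hx y
    rw [hZ] at hy; exact hy.1)
  have key : ∀ x : Q, x ∈ closure I → (∀ i : Q, i * i = 1 → Commute x i) → x = 1 := by
    intro x hx h
    have : x ∈ Z := by
      rw [hZ]
      refine ⟨hx, ?_⟩
      change x ∈ centralizer I
      rw [mem_centralizer_iff]
      intro i hi
      rw [hI] at hi
      exact (h i hi).symm
    rw [hZ1] at this
    exact this
  have memI : ∀ {x : Q}, x * x = 1 → x ∈ closure I := fun hx => subset_closure (mI hx)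
  have memcm : ∀ {x y : Q}, x ∈ closure I → y ∈ closure I → cm x y ∈ closure I := by
    intro x y hx hy
    exact mul_mem (mul_mem (mul_mem hx hy) (inv_mem hx)) (inv_mem hy)
  have k4 : ∀ a b c d : Q, a * a = 1 → b * b = 1 → c * c = 1 → d * d = 1 →
      cm (cm (cm a b) c) d = 1 := by
    intro a b c d ha hb hc hd
    have f := lemL4 Q h2 hP ha hb hc hd
    exact hP _ f a (subset_closure (by simp)) b (subset_closure (by simp))
      c (subset_closure (by simp)) d (subset_closure (by simp))
  have k3 : ∀ a b c : Q, a * a = 1 → b * b = 1 → c * c = 1 → cm (cm a b) c = 1 := by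
    intro a b c ha hb hc
    exact key _ (memcm (memcm (memI ha) (memI hb)) (memI hc))
      (fun d hd => cm_eq_one.1 (k4 a b c d ha hb hc hd))
  have k2 : ∀ a b : Q, a * a = 1 → b * b = 1 → cm a b = 1 := by
    intro a b ha hb
    exact key _ (memcm (memI ha) (memI hb)) (fun c hc => cm_eq_one.1 (k3 a b c ha hb hc))
  exact key a (memI ha) (fun b hb => cm_eq_one.1 (k2 a b ha hb))

theorem red_trivial (Q : Type) [Group Q] (h2 : IsPGroup 2 Q) (hP : PP Q) (hR : Red Q) (g : Q) :
    g = 1 := by
  obtain ⟨k, hk⟩ := h2 g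
  induction k with
  | zero => simpa using hk
  | succ k ih =>
    apply ih
    apply no_invol Q h2 hP hR
    rw [← pow_add]
    rw [pow_succ] at hk
    have : 2 ^ k + 2 ^ k = 2 ^ k * 2 := by ring
    rw [this]; exact hk

theorem lf_top (G : Type) [Group G] (h2 : IsPGroup 2 G) (hP : PP G) : LFs (⊤ : Subgroup G) := by
  obtain ⟨M, hMn, hMl, hmax⟩ := exists_max G
  have := hMn
  have h : ∀ q : G ⧸ M, q = 1 :=
    red_trivial (G ⧸ M) (h2.to_quotient M) (PP_quot M hMl hP) (red_quot M hMl hmax)
  have : M = ⊤ := by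
    rw [eq_top_iff]
    intro x _
    have := h (QuotientGroup.mk' M x)
    rw [← MonoidHom.mem_ker, QuotientGroup.ker_mk'] at this
    exact this
  rw [← this]; exact hMl

theorem all_class (G : Type) [Group G] (h2 : IsPGroup 2 G) (hP : PP G) (x y z w : G) :
    cm (cm (cm x y) z) w = 1 := by
  have h := lf_top G h2 hP {x, y, z, w} (by simp) (fun _ _ => trivial)
  exact hP _ h x (subset_closure (by simp)) y (subset_closure (by simp))
    z (subset_closure (by simp)) w (subset_closure (by simp))

theorem PP_of (G : Type) [Group G]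
    (h : ∀ H : Subgroup G, Finite ↥H → Subgroup.upperCentralSeries (↥H) 3 = ⊤) : PP G := by
  intro F hF x hx y hy z hz w hw
  have hfin : Finite F := hF.to_subtype
  have h3 := h F hfin
  have hx3 : (⟨x, hx⟩ : F) ∈ Subgroup.upperCentralSeries F 3 := by rw [h3]; trivial
  have h1 := (Subgroup.mem_upperCentralSeries_succ_iff.1 hx3) ⟨y, hy⟩
  have h4 := (Subgroup.mem_upperCentralSeries_succ_iff.1 h1) ⟨z, hz⟩
  have h5 := (Subgroup.mem_upperCentralSeries_succ_iff.1 h4) ⟨w, hw⟩
  rw [Subgroup.upperCentralSeries_zero, mem_bot] at h5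
  exact congrArg Subtype.val h5

theorem main (G : Type) [Group G] (h2 : IsPGroup 2 G)
    (h : ∀ H : Subgroup G, Finite ↥H → Subgroup.upperCentralSeries (↥H) 3 = ⊤) :
    Group.IsNilpotent G := by
  have hP := PP_of G h
  have hall := all_class G h2 hP
  refine ⟨⟨3, ?_⟩⟩
  rw [eq_top_iff]
  intro x _
  rw [Subgroup.mem_upperCentralSeries_succ_iff]
  intro y
  rw [Subgroup.mem_upperCentralSeries_succ_iff]
  intro z
  rw [Subgroup.mem_upperCentralSeries_succ_iff]
  intro w
  rw [Subgroup.upperCentralSeries_zero, mem_bot]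
  exact hall x y z w

end Pool.Agent.H532G2
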