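import Pool.Agent.H532G2.L2A

set_option autoImplicit false

namespace Pool.Agent.H532G2

open Subgroup

theorem lemL2A (G : Type) [Group G] (h2 : IsPGroup 2 G) (hP : PP G) {a x c : G}
    (ha : a * a = 1) (hx : x * x = 1) (hc : c * c = 1) (hax : Commute a x)
    (hac : (a * c) ^ 4 = 1) : (closure {a, x, c} : Set G).Finite := by
  apply reduce3 {w | w = .of 0 * .of 0 ∨ w = .of 1 * .of 1 ∨ w = .of 2 * .of 2 ∨
    w = (.of 0 * .of 1) ^ 2 ∨ w = (.of 0 * .of 2) ^ 4} _ G h2 hP a x c
  · rintro y (rfl | rfl | rfl | rfl | rfl)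
    · simpa using ha
    · simpa using hx
    · simpa using hc
    · simpa using (commute_iff_sq ha hx).2 hax
    · simpa using hac
  · clear ha hx hc hax hac h2 hP a x c
    intro Q _ h2 hP hR a x c hr hS
    simp only [Set.mem_ofPred_eq, forall_eq_or_imp, forall_eq, map_mul, map_pow,
      FreeGroup.lift_apply_of] at hr
    obtain ⟨ha, hx, hc, hax, hac⟩ := hr
    change a * a = 1 at ha
    change x * x = 1 at hx
    change c * c = 1 at hc
    change (a * x) ^ 2 = 1 at hax
    change (a * c) ^ 4 = 1 at hac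
    exact L2A_main Q h2 hP hR hS ha hx hc ((commute_iff_sq ha hx).1 hax) hac

theorem L2B_main (Q : Type) [Group Q] (h2 : IsPGroup 2 Q) (hP : PP Q) (hR : Red Q)
    {a x c : Q} (hS : closure {a, x, c} = (⊤ : Subgroup Q))
    (ha : a * a = 1) (hx : x * x = 1) (hc : c * c = 1) (hax : Commute a x) : Finite Q := by
  have hcen : ∀ y : Q, Commute y a → Commute y x → Commute y c → y = 1 := by
    intro y h1 h3 h4
    apply central_one' h2 hR hS
    rintro g (rfl | rfl | rfl) <;> assumption
  have hcc : ∀ y : Q, c * (c * y) = y := fun y => by rw [← mul_assoc, hc, one_mul]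
  have h8 : (x * c) ^ 8 = 1 := pow8 h2 hP hx hc
  obtain ⟨d, hd⟩ : ∃ d, d = c * x * c := ⟨_, rfl⟩
  have hdd : d * d = 1 := by rw [hd]; exact conj_sq hx hc
  have hxd : x * d = (x * c) ^ 2 := by rw [hd, pow_two]; simp only [mul_assoc]
  have hxd4 : (x * d) ^ 4 = 1 := by rw [hxd, ← pow_mul]; exact h8
  have f1 := lemL2A Q h2 hP hx ha hdd hax.symm hxd4
  have m1 : x ∈ closure {x, a, d} := subset_closure (by simp)
  have m2 : a ∈ closure {x, a, d} := subset_closure (by simp)
  have m3 : d ∈ closure {x, a, d} := subset_closure (by simp)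
  obtain ⟨z, hz⟩ : ∃ z, z = (x * c) ^ 4 := ⟨_, rfl⟩
  have hzz : z * z = 1 := by rw [hz, ← pow_add]; exact h8
  have zx : Commute z x := by rw [hz]; exact comm_l hx hc (by rw [← hz]; exact hzz)
  have zc : Commute z c := by rw [hz]; exact comm_r hx hc (by rw [← hz]; exact hzz)
  have hzcm : cm x d = z := by
    rw [cm_invol hx hdd, hxd, hz, ← pow_mul]
  obtain ⟨t, ht⟩ : ∃ t, t = cm z a := ⟨_, rfl⟩
  have tx : Commute t x := by rw [ht, ← hzcm]; exact pp_use hP f1 m1 m3 m2 m1
  have ta : Commute t a := by rw [ht, ← hzcm]; exact pp_use hP f1 m1 m3 m2 m2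
  have td : Commute t d := by rw [ht, ← hzcm]; exact pp_use hP f1 m1 m3 m2 m3
  have ht' : t = (z * a) ^ 2 := by rw [ht]; exact cm_invol hzz ha
  have htt : t * t = 1 := by rw [ht']; exact sq_of_comm hzz ha (by rw [← ht']; exact ta)
  have hza4 : (z * a) ^ 4 = 1 := pow_two_two' (by rw [← ht']; exact htt)
  have f2 := lemL2A Q h2 hP hzz hc ha zc hza4
  have n1 : z ∈ closure {z, c, a} := subset_closure (by simp)
  have n2 : c ∈ closure {z, c, a} := subset_closure (by simp)
  have n3 : a ∈ closure {z, c, a} := subset_closure (by simp)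
  obtain ⟨l, hl⟩ : ∃ l, l = cm t c := ⟨_, rfl⟩
  have la : Commute l a := by rw [hl, ht]; exact pp_use hP f2 n1 n3 n2 n3
  have lc : Commute l c := by rw [hl, ht]; exact pp_use hP f2 n1 n3 n2 n2
  have ctc : Commute (c * t * c) x := by
    have h1 : t * (c * x * c) = (c * x * c) * t := by rw [← hd]; exact td.eq
    have e1 : c * t * c * x = c * (t * (c * x * c)) * c := by simp only [mul_assoc, hcc, hc, mul_one]
    have e2 : x * (c * t * c) = c * ((c * x * c) * t) * c := by simp only [mul_assoc, hcc]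
    unfold Commute SemiconjBy
    rw [e1, e2, h1]
  have lx : Commute l x := by
    have : l = t * (c * t * c) := by
      rw [hl]; unfold cm
      rw [inv_eq_of_mul_eq_one_right htt, inv_eq_of_mul_eq_one_right hc]
      simp only [mul_assoc]
    rw [this]; exact tx.mul_left ctc
  have l1 : l = 1 := hcen l la lx lc
  have tc : Commute t c := cm_eq_one.1 (by rw [← hl]; exact l1)
  have t1 : t = 1 := hcen t ta tx tc
  have za : Commute z a := cm_eq_one.1 (by rw [← ht]; exact t1)
  have z1 : z = 1 := hcen z za zx zc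
  have hxc4 : (x * c) ^ 4 = 1 := by rw [← hz]; exact z1
  apply fin_of_top hS (lemL2A Q h2 hP hx ha hc hax.symm hxc4)
  rintro y (rfl | rfl | rfl)
  · exact subset_closure (by simp)
  · exact subset_closure (by simp)
  · exact subset_closure (by simp)

/-- two commuting involutions and a third one generate a finite group -/
theorem lemL2 (G : Type) [Group G] (h2 : IsPGroup 2 G) (hP : PP G) {a x c : G}
    (ha : a * a = 1) (hx : x * x = 1) (hc : c * c = 1) (hax : Commute a x) :
    (closure {a, x, c} : Set G).Finite := by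
  apply reduce3 {w | w = .of 0 * .of 0 ∨ w = .of 1 * .of 1 ∨ w = .of 2 * .of 2 ∨
    w = (.of 0 * .of 1) ^ 2} _ G h2 hP a x c
  · rintro y (rfl | rfl | rfl | rfl)
    · simpa using ha
    · simpa using hx
    · simpa using hc
    · simpa using (commute_iff_sq ha hx).2 hax
  · clear ha hx hc hax h2 hP a x c
    intro Q _ h2 hP hR a x c hr hS
    simp only [Set.mem_ofPred_eq, forall_eq_or_imp, forall_eq, map_mul, map_pow,
      FreeGroup.lift_apply_of] at hr
    obtain ⟨ha, hx, hc, hax⟩ := hr
    change a * a = 1 at ha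
    change x * x = 1 at hx
    change c * c = 1 at hc
    change (a * x) ^ 2 = 1 at hax
    exact L2B_main Q h2 hP hR hS ha hx hc ((commute_iff_sq ha hx).1 hax)

end Pool.Agent.H532G2
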