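import Pool.Agent.H532G2.LemL2A

set_option autoImplicit false

namespace Pool.Agent.H532G2

open Subgroup

theorem L2A_main (Q : Type) [Group Q] (h2 : IsPGroup 2 Q) (hP : PP Q) (hR : Red Q)
    {a x c : Q} (hS : closure {a, x, c} = (⊤ : Subgroup Q))
    (ha : a * a = 1) (hx : x * x = 1) (hc : c * c = 1) (hax : Commute a x)
    (hac : (a * c) ^ 4 = 1) : Finite Q := by
  obtain ⟨f, hf⟩ : ∃ f : ℤ → Q, f = ff a (x * c) := ⟨_, rfl⟩
  have f0 : f 0 = a := by rw [hf]; exact ff_zero _ _
  have fsq : ∀ i, f i * f i = 1 := fun i => by rw [hf]; exact ff_sq ha _ i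
  have fx : ∀ i, x * f i * x = f (-i) := fun i => by rw [hf]; exact ff_x hx hc hax i
  have fc : ∀ i, c * f i * c = f (1 - i) := fun i => by rw [hf]; exact ff_c hx hc hax i
  have fp4 : ∀ i j, (f i * f j) ^ 4 = 1 := fun i j => by
    rw [hf]; exact ff_pow4 h2 hP ha hx hc hax i j
  have fsh : ∀ i j k : ℤ, Commute (f i) (f j) → Commute (f (i + k)) (f (j + k)) := by
    intro i j k h
    rw [hf] at h ⊢
    exact ff_comm_shift _ _ k h
  have h8 : (x * c) ^ 8 = 1 := pow8 h2 hP hx hc
  have fper : ∀ i k : ℤ, f (i + 8 * k) = f i := fun i k => by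
    rw [hf]; exact ff_per h8 a i k
  clear hf
  have hxx : ∀ y : Q, x * (x * y) = y := fun y => by rw [← mul_assoc, hx, one_mul]
  have hcc : ∀ y : Q, c * (c * y) = y := fun y => by rw [← mul_assoc, hc, one_mul]
  have hS2 : ∀ g ∈ ({a, x, c} : Set Q), g * g = 1 := by
    rintro g (rfl | rfl | rfl) <;> assumption
  have hcen : ∀ y : Q, Commute y a → Commute y x → Commute y c → y = 1 := by
    intro y h1 h3 h4
    apply central_one' h2 hR hS
    rintro g (rfl | rfl | rfl) <;> assumption
  have shift : ∀ i j : ℤ, Commute (f i) (f j) → ∀ k l : ℤ, l - k = j - i →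
      Commute (f k) (f l) := by
    intro i j h k l hkl
    have := fsh i j (k - i) h
    have e1 : i + (k - i) = k := by ring
    have e2 : j + (k - i) = l := by linarith
    rwa [e1, e2] at this
  -- difference 1
  have c1 : ∀ k l : ℤ, l - k = 1 → Commute (f k) (f l) := by
    have : Commute (f 0) (f 1) := by
      have h1 : f 1 = c * a * c := by rw [← f0, fc]; rfl
      rw [h1, f0]; exact comm_conj ha hc hac
    intro k l h
    exact shift 0 1 this k l (by rw [h]; rfl)
  -- cm of f with reflections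
  have cmc : ∀ i, cm (f i) c = f i * f (1 - i) := by
    intro i
    rw [cm_invol (fsq i) hc, pow_two, ← fc i]; simp only [mul_assoc]
  have cmx : ∀ i, cm (f i) x = f i * f (-i) := by
    intro i
    rw [cm_invol (fsq i) hx, pow_two, ← fx i]; simp only [mul_assoc]
  have commx : ∀ i, Commute ((f i * f (-i)) ^ 2) x := by
    intro i
    have e : f i * f (-i) = (f i * x) ^ 2 := by
      rw [← fx i, pow_two]; simp only [mul_assoc]
    rw [e, ← pow_mul]
    apply comm_r (fsq i) hx
    rw [← pow_add]
    exact pow8 h2 hP (fsq i) hx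
  -- first path group
  have P1 := lemP Q h2 hP (fsq (-1)) (fsq 0) (fsq 1) (fsq 2)
    (c1 (-1) 0 rfl) (c1 0 1 rfl) (c1 1 2 rfl) (fp4 _ _) (fp4 _ _) (fp4 _ _)
  obtain ⟨F, hF, hKF, hcF⟩ := ext_invol _ P1 hc (conj_closure hc (by
    rintro t (rfl | rfl | rfl | rfl)
    · rw [fc]; exact subset_closure (by norm_num)
    · rw [fc]; exact subset_closure (by norm_num)
    · rw [fc]; exact subset_closure (by norm_num)
    · rw [fc]; exact subset_closure (by norm_num)))
  have m1 : f (-1) ∈ F := hKF (subset_closure (by simp))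
  have m2 : f 0 ∈ F := hKF (subset_closure (by simp))
  have m3 : f 1 ∈ F := hKF (subset_closure (by simp))
  have m4 : f 2 ∈ F := hKF (subset_closure (by simp))
  have c2 : ∀ k l : ℤ, l - k = 2 → Commute (f k) (f l) := by
    obtain ⟨p, hp⟩ : ∃ p, p = (f 0 * f 2) ^ 2 := ⟨_, rfl⟩
    have hp2 : cm (cm (f 0) c) (f 2) = p := by
      rw [cmc]
      have : (1 : ℤ) - 0 = 1 := rfl
      rw [this, cm_mul_left_of_comm (c1 1 2 rfl), cm_invol (fsq 0) (fsq 2), hp]
    have pc : Commute p c := by rw [← hp2]; exact pp_use' hP hF m2 hcF m4 hcF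
    have p0 : Commute p (f 0) := by rw [← hp2]; exact pp_use' hP hF m2 hcF m4 m2
    have hp3 : p = (f 1 * f (-1)) ^ 2 := by
      have h1 : c * p * c = p := by rw [← pc.eq, mul_assoc, hc, mul_one]
      have h3 : c * p * c = ((c * f 0 * c) * (c * f 2 * c)) ^ 2 := by
        rw [hp, pow_two, pow_two]; simp only [mul_assoc, hcc]
      rw [fc, fc] at h3
      rw [← h1, h3]; norm_num
    have px : Commute p x := by rw [hp3]; exact commx 1
    have p1 : p = 1 := hcen p (by rw [← f0]; exact p0) px pc
    have : Commute (f 0) (f 2) := (commute_iff_sq (fsq 0) (fsq 2)).1 (by rw [← hp]; exact p1)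
    intro k l h
    exact shift 0 2 this k l (by rw [h]; rfl)
  -- second path group
  have P2 := lemP Q h2 hP (fsq (-2)) (fsq (-1)) (fsq 1) (fsq 2)
    (c1 (-2) (-1) rfl) (c2 (-1) 1 rfl) (c1 1 2 rfl) (fp4 _ _) (fp4 _ _) (fp4 _ _)
  obtain ⟨F', hF', hKF', hxF'⟩ := ext_invol _ P2 hx (conj_closure hx (by
    rintro t (rfl | rfl | rfl | rfl)
    · rw [fx]; exact subset_closure (by norm_num)
    · rw [fx]; exact subset_closure (by norm_num)
    · rw [fx]; exact subset_closure (by norm_num)
    · rw [fx]; exact subset_closure (by norm_num)))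
  have n1 : f (-2) ∈ F' := hKF' (subset_closure (by simp))
  have n2 : f (-1) ∈ F' := hKF' (subset_closure (by simp))
  have n3 : f 1 ∈ F' := hKF' (subset_closure (by simp))
  have n4 : f 2 ∈ F' := hKF' (subset_closure (by simp))
  have c3 : ∀ k l : ℤ, l - k = 3 → Commute (f k) (f l) := by
    obtain ⟨s, hs⟩ : ∃ s, s = (f (-1) * f 2) ^ 2 := ⟨_, rfl⟩
    have hs1 : cm (cm (f (-1)) c) (f (-1)) = s := by
      rw [cmc]
      have : (1 : ℤ) - (-1) = 2 := rfl
      rw [this, hs]
      unfold cm
      rw [mul_inv_rev, inv_eq_of_mul_eq_one_right (fsq (-1)), inv_eq_of_mul_eq_one_right (fsq 2),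
        pow_two]
      have e : ∀ y : Q, f (-1) * (f (-1) * y) = y := fun y => by
        rw [← mul_assoc, fsq, one_mul]
      simp only [mul_assoc, fsq, mul_one]
    have sc : Commute s c := by rw [← hs1]; exact pp_use' hP hF m1 hcF m1 hcF
    have s0 : Commute s (f 0) := by rw [← hs1]; exact pp_use' hP hF m1 hcF m1 m2
    have hs2 : cm (cm (f 1) x) (f 2) = s := by
      rw [cmx]
      rw [(c2 (-1) 1 rfl).symm.eq, cm_mul_left_of_comm (c1 1 2 rfl), cm_invol (fsq _) (fsq _), hs]
    have sx : Commute s x := by rw [← hs2]; exact pp_use' hP hF' n3 hxF' n4 hxF'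
    have s1 : s = 1 := hcen s (by rw [← f0]; exact s0) sx sc
    have : Commute (f (-1)) (f 2) :=
      (commute_iff_sq (fsq _) (fsq 2)).1 (by rw [← hs]; exact s1)
    intro k l h
    exact shift (-1) 2 this k l (by rw [h]; rfl)
  -- all differences except 4 mod 8
  have call : ∀ i j : ℤ, (j - i) % 8 ≠ 4 → Commute (f i) (f j) := by
    intro i j h
    have hj : f j = f (i + (j - i) % 8) := by
      have e : j = (i + (j - i) % 8) + 8 * ((j - i) / 8) := by
        have := Int.emod_add_mul_ediv (j - i) 8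
        linarith
      nth_rewrite 1 [e]
      exact fper _ _
    rw [hj]
    have hlt : (j - i) % 8 < 8 := Int.emod_lt_of_pos _ (by norm_num)
    have hge : 0 ≤ (j - i) % 8 := Int.emod_nonneg _ (by norm_num)
    obtain ⟨r, hr⟩ : ∃ r, r = (j - i) % 8 := ⟨_, rfl⟩
    rw [← hr] at h hlt hge ⊢
    have hcases : r = 0 ∨ r = 1 ∨ r = 2 ∨ r = 3 ∨ r = 5 ∨ r = 6 ∨ r = 7 := by omega
    rcases hcases with h | h | h | h | h | h | h
    · rw [h, add_zero]
    · exact c1 _ _ (by rw [h]; ring)
    · exact c2 _ _ (by rw [h]; ring)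
    · exact c3 _ _ (by rw [h]; ring)
    · have e := fper (i + r) (-1)
      rw [← e]; exact (c3 _ _ (by rw [h]; ring)).symm
    · have e := fper (i + r) (-1)
      rw [← e]; exact (c2 _ _ (by rw [h]; ring)).symm
    · have e := fper (i + r) (-1)
      rw [← e]; exact (c1 _ _ (by rw [h]; ring)).symm
  obtain ⟨w, hw⟩ : ∃ w : ℤ → Q, w = fun i => (f i * f (i + 4)) ^ 2 := ⟨_, rfl⟩
  have wsq : ∀ i, w i * w i = 1 := fun i => by rw [hw]; exact pow_two_two (fp4 _ _)
  have wf : ∀ i j, Commute (w i) (f j) := by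
    intro i j
    by_cases h4 : (j - i) % 8 = 4
    · have : f j = f (i + 4) := by
        have e : j = (i + 4) + 8 * ((j - i) / 8) := by
          have := Int.emod_add_mul_ediv (j - i) 8
          linarith
        nth_rewrite 1 [e]; exact fper _ _
      rw [this, hw]
      exact comm_r (fsq _) (fsq _) (pow_two_two (fp4 _ _))
    · by_cases h0 : (j - (i + 4)) % 8 = 4
      · have : f j = f i := by
          have e : j = i + 8 * ((j - i) / 8) := by omega
          nth_rewrite 1 [e]; exact fper _ _
        rw [this, hw]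
        exact comm_l (fsq _) (fsq _) (pow_two_two (fp4 _ _))
      · rw [hw]
        exact ((call i j h4).mul_left (call (i + 4) j h0)).pow_left 2
  have wrev : ∀ j, (f (j + 4) * f j) ^ 2 = w j := by
    intro j
    have h1 : (f (j + 4) * f j) ^ 2 * w j = 1 := by
      rw [hw]
      have e1 : ∀ y : Q, f j * (f j * y) = y := fun y => by rw [← mul_assoc, fsq, one_mul]
      have e2 : ∀ y : Q, f (j + 4) * (f (j + 4) * y) = y := fun y => by
        rw [← mul_assoc, fsq, one_mul]
      simp only [pow_two, mul_assoc, e1, e2, fsq]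
    calc (f (j + 4) * f j) ^ 2 = (f (j + 4) * f j) ^ 2 * (w j * w j) := by rw [wsq, mul_one]
      _ = ((f (j + 4) * f j) ^ 2 * w j) * w j := by rw [mul_assoc]
      _ = w j := by rw [h1, one_mul]
  have w1 : ∀ t ∈ Set.range w, t = 1 := by
    apply abel_gens_one h2 hR hS hS2
    · rintro g (rfl | rfl | rfl) t ⟨i, rfl⟩
      · have : g * w i * g = w i := by
          have := wf i 0
          rw [f0] at this
          rw [← this.eq, mul_assoc, ha, mul_one]
        rw [this]; exact subset_closure ⟨i, rfl⟩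
      · have : g * w i * g = w (-i - 4) := by
          have e : g * w i * g = ((g * f i * g) * (g * f (i + 4) * g)) ^ 2 := by
            rw [hw]; simp only [pow_two, mul_assoc, hxx]
          have e1 : -i - 4 + 4 = -i := by ring
          have e2 : -(i + 4) = -i - 4 := by ring
          rw [e, fx, fx, ← wrev, e1, e2]
        rw [this]; exact subset_closure ⟨_, rfl⟩
      · have : g * w i * g = w (1 - i - 4) := by
          have e : g * w i * g = ((g * f i * g) * (g * f (i + 4) * g)) ^ 2 := by
            rw [hw]; simp only [pow_two, mul_assoc, hcc]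
          have e1 : 1 - i - 4 + 4 = 1 - i := by ring
          have e2 : 1 - (i + 4) = 1 - i - 4 := by ring
          rw [e, fc, fc, ← wrev, e1, e2]
        rw [this]; exact subset_closure ⟨_, rfl⟩
    · rintro _ ⟨i, rfl⟩ _ ⟨j, rfl⟩
      have : w j = (f j * f (j + 4)) ^ 2 := by rw [hw]
      rw [this]
      exact ((wf i j).mul_right (wf i (j + 4))).pow_right 2
  have c4 : ∀ i, Commute (f i) (f (i + 4)) := by
    intro i
    apply (commute_iff_sq (fsq _) (fsq _)).1
    have := w1 (w i) ⟨i, rfl⟩
    rw [hw] at this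
    exact this
  have cc : ∀ i j, Commute (f i) (f j) := by
    intro i j
    by_cases h4 : (j - i) % 8 = 4
    · have : f j = f (i + 4) := by
        have e : j = (i + 4) + 8 * ((j - i) / 8) := by omega
        nth_rewrite 1 [e]; exact fper _ _
      rw [this]; exact c4 i
    · exact call i j h4
  have ff1 : ∀ t ∈ Set.range f, t = 1 := by
    apply abel_gens_one h2 hR hS hS2
    · rintro g (rfl | rfl | rfl) t ⟨i, rfl⟩
      · have : g * f i * g = f i := by
          have := cc i 0
          rw [f0] at this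
          rw [← this.eq, mul_assoc, ha, mul_one]
        rw [this]; exact subset_closure ⟨i, rfl⟩
      · rw [fx]; exact subset_closure ⟨_, rfl⟩
      · rw [fc]; exact subset_closure ⟨_, rfl⟩
    · rintro _ ⟨i, rfl⟩ _ ⟨j, rfl⟩
      exact cc i j
  have a1 : a = 1 := by rw [← f0]; exact ff1 _ ⟨0, rfl⟩
  apply fin_of_top hS (dih_fin h2 hx hc)
  rintro y (rfl | rfl | rfl)
  · rw [a1]; exact one_mem _
  · exact subset_closure (by simp)
  · exact subset_closure (by simp)

end Pool.Agent.H532G2
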