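import Pool.Agent.H532G2.Chain

set_option autoImplicit false

namespace Pool.Agent.H532G2

open Subgroup

theorem cm_inv {G : Type} [Group G] (x y : G) : (cm x y)⁻¹ = cm y x := by
  unfold cm; group

theorem L3A_step (Q : Type) [Group Q] (h2 : IsPGroup 2 Q) (hP : PP Q) (hR : Red Q)
    {a b c : Q} {S : Set Q} (hS : closure S = ⊤)
    (hS2 : ∀ g ∈ S, g = a ∨ g = b ∨ g = c)
    (ha : a * a = 1) (hb : b * b = 1) (hc : c * c = 1)
    (hac : (a * c) ^ 4 = 1) (hbc : (b * c) ^ 4 = 1) : Commute a c := by
  have hcen : ∀ y : Q, Commute y a → Commute y b → Commute y c → y = 1 := by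
    intro y h1 h3 h4
    apply central_one' h2 hR hS
    intro g hg
    rcases hS2 g hg with rfl | rfl | rfl <;> assumption
  obtain ⟨p, hp⟩ : ∃ p, p = (a * c) ^ 2 := ⟨_, rfl⟩
  obtain ⟨q, hq⟩ : ∃ q, q = (b * c) ^ 2 := ⟨_, rfl⟩
  have pp : p * p = 1 := by rw [hp]; exact pow_two_two hac
  have qq : q * q = 1 := by rw [hq]; exact pow_two_two hbc
  have pa : Commute p a := by rw [hp]; exact comm_l ha hc (by rw [← hp]; exact pp)
  have pc : Commute p c := by rw [hp]; exact comm_r ha hc (by rw [← hp]; exact pp)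
  have qb : Commute q b := by rw [hq]; exact comm_l hb hc (by rw [← hq]; exact qq)
  have qc : Commute q c := by rw [hq]; exact comm_r hb hc (by rw [← hq]; exact qq)
  have hpcm : cm a c = p := by rw [hp]; exact cm_invol ha hc
  have hqcm : cm b c = q := by rw [hq]; exact cm_invol hb hc
  have f1 := lemL2 Q h2 hP pp hc hb pc
  have m1 : p ∈ closure {p, c, b} := subset_closure (by simp)
  have m2 : c ∈ closure {p, c, b} := subset_closure (by simp)
  have m3 : b ∈ closure {p, c, b} := subset_closure (by simp)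
  have f2 := lemL2 Q h2 hP qq hc ha qc
  have n1 : q ∈ closure {q, c, a} := subset_closure (by simp)
  have n2 : c ∈ closure {q, c, a} := subset_closure (by simp)
  have n3 : a ∈ closure {q, c, a} := subset_closure (by simp)
  have e1 : cm q p = 1 := by
    apply hcen
    · have : Commute (cm p q) a := by rw [← hpcm]; exact pp_use hP f2 n3 n2 n1 n3
      rw [← cm_inv p q]; exact this.inv_left
    · rw [← hqcm]; exact pp_use hP f1 m3 m2 m1 m3
    · rw [← hqcm]; exact pp_use hP f1 m3 m2 m1 m2
  have qp : Commute q p := cm_eq_one.1 e1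
  have hcc : ∀ y : Q, c * (c * y) = y := fun y => by rw [← mul_assoc, hc, one_mul]
  have hbb : ∀ y : Q, b * (b * y) = y := fun y => by rw [← mul_assoc, hb, one_mul]
  have hqq' : ∀ y : Q, q * (q * y) = y := fun y => by rw [← mul_assoc, qq, one_mul]
  have hcbc : c * b * c = b * q := by
    rw [hq, pow_two]; simp only [mul_assoc, hbb]
  have hcbc' : c * b * c = q * b := by rw [hcbc, qb.eq]
  have hcpc : c * p * c = p := by rw [← pc.eq, mul_assoc, hc, mul_one]
  have h3 : c * (b * p * b) * c = b * p * b := by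
    have : c * (b * p * b) * c = (c * b * c) * (c * p * c) * (c * b * c) := by
      simp only [mul_assoc, hcc]
    rw [this, hcpc]
    nth_rewrite 2 [hcbc']
    rw [hcbc]
    have : q * p * q = p := by rw [qp.eq, mul_assoc, qq, mul_one]
    calc b * q * p * (q * b) = b * (q * p * q) * b := by simp only [mul_assoc]
      _ = b * p * b := by rw [this]
  have h4 : Commute (b * p * b) c := by
    have : b * p * b * c = c * (b * p * b) := by
      calc b * p * b * c = (c * c) * (b * p * b * c) := by rw [hc, one_mul]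
        _ = c * (c * (b * p * b) * c) := by simp only [mul_assoc]
        _ = c * (b * p * b) := by rw [h3]
    exact this
  have h5 : Commute (cm p b) c := by
    have : cm p b = p * (b * p * b) := by
      rw [cm_invol pp hb, pow_two]; simp only [mul_assoc]
    rw [this]; exact pc.mul_left h4
  have p1 : p = 1 := lemChain Q h2 hP hR hS hS2 ha hb hc pp pa pc h5
  exact (commute_iff_sq ha hc).1 (by rw [← hp]; exact p1)

theorem lemL3A (G : Type) [Group G] (h2 : IsPGroup 2 G) (hP : PP G) {a b c : G}
    (ha : a * a = 1) (hb : b * b = 1) (hc : c * c = 1)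
    (hac : (a * c) ^ 4 = 1) (hbc : (b * c) ^ 4 = 1) : (closure {a, b, c} : Set G).Finite := by
  apply reduce3 {w | w = .of 0 * .of 0 ∨ w = .of 1 * .of 1 ∨ w = .of 2 * .of 2 ∨
    w = (.of 0 * .of 2) ^ 4 ∨ w = (.of 1 * .of 2) ^ 4} _ G h2 hP a b c
  · rintro y (rfl | rfl | rfl | rfl | rfl)
    · simpa using ha
    · simpa using hb
    · simpa using hc
    · simpa using hac
    · simpa using hbc
  · clear ha hb hc hac hbc h2 hP a b c
    intro Q _ h2 hP hR a b c hr hS
    simp only [Set.mem_ofPred_eq, forall_eq_or_imp, forall_eq, map_mul, map_pow,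
      FreeGroup.lift_apply_of] at hr
    obtain ⟨ha, hb, hc, hac, hbc⟩ := hr
    change a * a = 1 at ha
    change b * b = 1 at hb
    change c * c = 1 at hc
    change (a * c) ^ 4 = 1 at hac
    change (b * c) ^ 4 = 1 at hbc
    have c1 : Commute a c := L3A_step Q h2 hP hR hS (by intro g hg; simpa using hg)
      ha hb hc hac hbc
    have c2 : Commute b c := L3A_step Q h2 hP hR hS (a := b) (b := a) (by
      intro g hg
      rcases hg with h | h | h
      · exact Or.inr (Or.inl h)
      · exact Or.inl h
      · exact Or.inr (Or.inr h)) hb ha hc hbc hac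
    have C1 : c = 1 := central_one' h2 hR hS (by
      rintro g (rfl | rfl | rfl)
      · exact c1.symm
      · exact c2.symm
      · exact Commute.refl _)
    apply fin_of_top hS (dih_fin h2 ha hb)
    rintro y (rfl | rfl | rfl)
    · exact subset_closure (by simp)
    · exact subset_closure (by simp)
    · rw [C1]; exact one_mem _

theorem L3_claim (Q : Type) [Group Q] (h2 : IsPGroup 2 Q) (hP : PP Q) (hR : Red Q)
    {a b c : Q} {S : Set Q} (hS : closure S = ⊤)
    (hS2 : ∀ g ∈ S, g = a ∨ g = b ∨ g = c)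
    (ha : a * a = 1) (hb : b * b = 1) (hc : c * c = 1)
    {x : Q} (hx : x * x = 1) (hxa : Commute x a) (hxb : Commute x b) : x = 1 := by
  have hcen : ∀ y : Q, Commute y a → Commute y b → Commute y c → y = 1 := by
    intro y h1 h3 h4
    apply central_one' h2 hR hS
    intro g hg
    rcases hS2 g hg with rfl | rfl | rfl <;> assumption
  obtain ⟨⟨tt, tx, tc⟩, ⟨rr, rx, ra, rc⟩, ⟨ss, sx, sb, sc⟩⟩ :=
    lemV Q h2 hP hR hS hS2 ha hb hc hx hxa hxb
  obtain ⟨t, ht⟩ : ∃ t, t = cm x c := ⟨_, rfl⟩
  rw [← ht] at tt tx tc rr rx ra rc ss sx sb sc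
  have ta4 : (a * t) ^ 4 = 1 := by
    apply pow_swap tt
    apply pow_two_two'
    rw [cm_invol tt ha] at rr
    exact rr
  have tb4 : (b * t) ^ 4 = 1 := by
    apply pow_swap tt
    apply pow_two_two'
    rw [cm_invol tt hb] at ss
    exact ss
  have f1 := lemL3A Q h2 hP ha hb tt ta4 tb4
  have m1 : a ∈ closure {a, b, t} := subset_closure (by simp)
  have m2 : b ∈ closure {a, b, t} := subset_closure (by simp)
  have m3 : t ∈ closure {a, b, t} := subset_closure (by simp)
  have r1 : cm t a = 1 := lemChain Q h2 hP hR hS (a := c) (b := b) (c := a) (by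
      intro g hg
      rcases hS2 g hg with h | h | h
      · exact Or.inr (Or.inr h)
      · exact Or.inr (Or.inl h)
      · exact Or.inl h) hc hb ha rr rc ra (pp_use hP f1 m3 m1 m2 m1)
  have s1 : cm t b = 1 := lemChain Q h2 hP hR hS (a := c) (b := a) (c := b) (by
      intro g hg
      rcases hS2 g hg with h | h | h
      · exact Or.inr (Or.inl h)
      · exact Or.inr (Or.inr h)
      · exact Or.inl h) hc ha hb ss sc sb (pp_use hP f1 m3 m2 m1 m2)
  have t1 : t = 1 := hcen t (cm_eq_one.1 r1) (cm_eq_one.1 s1) tc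
  have xc : Commute x c := cm_eq_one.1 (by rw [← ht]; exact t1)
  exact hcen x hxa hxb xc

/-- three involutions generate a finite group -/
theorem lemL3 (G : Type) [Group G] (h2 : IsPGroup 2 G) (hP : PP G) {a b c : G}
    (ha : a * a = 1) (hb : b * b = 1) (hc : c * c = 1) :
    (closure {a, b, c} : Set G).Finite := by
  apply reduce3 {w | w = .of 0 * .of 0 ∨ w = .of 1 * .of 1 ∨ w = .of 2 * .of 2} _ G h2 hP a b c
  · rintro y (rfl | rfl | rfl)
    · simpa using ha
    · simpa using hb
    · simpa using hc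
  · clear ha hb hc h2 hP a b c
    intro Q _ h2 hP hR a b c hr hS
    simp only [Set.mem_ofPred_eq, forall_eq_or_imp, forall_eq, map_mul, map_pow,
      FreeGroup.lift_apply_of] at hr
    obtain ⟨ha, hb, hc⟩ := hr
    change a * a = 1 at ha
    change b * b = 1 at hb
    change c * c = 1 at hc
    have claim : ∀ x : Q, x * x = 1 → Commute x a → Commute x b → x = 1 := by
      intro x hx hxa hxb
      exact L3_claim Q h2 hP hR hS (by intro g hg; simpa using hg) ha hb hc hx hxa hxb
    have h8 := pow8 h2 hP ha hb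
    have e4 : (a * b) ^ 4 * (a * b) ^ 4 = 1 := by rw [← pow_add]; exact h8
    have h4 : (a * b) ^ 4 = 1 := claim _ e4 (comm_l ha hb e4) (comm_r ha hb e4)
    have e2 := pow_two_two h4
    have h22 : (a * b) ^ 2 = 1 := claim _ e2 (comm_l ha hb e2) (comm_r ha hb e2)
    have hab := (commute_iff_sq ha hb).1 h22
    have a1 : a = 1 := claim a ha (Commute.refl _) hab
    have b1 : b = 1 := claim b hb hab.symm (Commute.refl _)
    apply fin_of_top hS (dih_fin h2 hc hc)
    rintro y (rfl | rfl | rfl)
    · rw [a1]; exact one_mem _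
    · rw [b1]; exact one_mem _
    · exact subset_closure (by simp)

end Pool.Agent.H532G2
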