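import Pool.Agent.H532G2.L3

set_option autoImplicit false

namespace Pool.Agent.H532G2

open Subgroup

/-- facts used about a set of involutions -/
structure Fa (Q : Type) [Group Q] : Prop where
  sq : ∀ u v : Q, u * u = 1 → v * v = 1 → cm u v * cm u v = 1
  cl : ∀ u v : Q, u * u = 1 → v * v = 1 → Commute (cm u v) u
  cr : ∀ u v : Q, u * u = 1 → v * v = 1 → Commute (cm u v) v
  c1 : ∀ u v w : Q, u * u = 1 → v * v = 1 → w * w = 1 → Commute (cm (cm u v) w) u
  c2 : ∀ u v w : Q, u * u = 1 → v * v = 1 → w * w = 1 → Commute (cm (cm u v) w) v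
  c3 : ∀ u v w : Q, u * u = 1 → v * v = 1 → w * w = 1 → Commute (cm (cm u v) w) w

theorem Fa.symm {Q : Type} [Group Q] (F : Fa Q) {u v : Q} (hu : u * u = 1) (hv : v * v = 1) :
    cm u v = cm v u := by
  rw [← cm_inv u v, inv_eq_of_mul_eq_one_right (F.sq u v hu hv)]

theorem cm_pow_l {G : Type} [Group G] {u v : G} (hu : u * u = 1) (hv : v * v = 1) (n : ℕ) :
    cm ((u * v) ^ n) u = (u * v) ^ n * (u * v) ^ n := by
  have hui : u⁻¹ = u := inv_eq_of_mul_eq_one_right hu
  unfold cm
  rw [hui]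
  have h3 := conj_l hu hv n
  calc (u * v) ^ n * u * ((u * v) ^ n)⁻¹ * u
      = (u * v) ^ n * (u * ((u * v) ^ n)⁻¹ * u) := by simp only [mul_assoc]
    _ = (u * v) ^ n * (u * (u * (u * v) ^ n * u) * u) := by rw [h3]
    _ = (u * v) ^ n * ((u * u) * (u * v) ^ n * (u * u)) := by simp only [mul_assoc]
    _ = (u * v) ^ n * (u * v) ^ n := by rw [hu, one_mul, mul_one]

theorem mkFa (Q : Type) [Group Q] (h2 : IsPGroup 2 Q) (hP : PP Q) (hR : Red Q)
    {S : Set Q} (hS : closure S = ⊤) (hSS : ∀ g ∈ S, g * g = 1) : Fa Q := by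
  have p4 : ∀ u v : Q, u * u = 1 → v * v = 1 → (u * v) ^ 2 * (u * v) ^ 2 = 1 := by
    intro u v hu hv
    apply central_one' h2 hR hS
    intro w hw
    have f := lemL3 Q h2 hP hu hv (hSS w hw)
    have m1 : u ∈ closure {u, v, w} := subset_closure (by simp)
    have m2 : v ∈ closure {u, v, w} := subset_closure (by simp)
    have m3 : w ∈ closure {u, v, w} := subset_closure (by simp)
    have h := pp_use hP f m1 m2 m1 m3
    rw [cm_invol hu hv, cm_pow_l hu hv 2] at h
    exact h
  refine ⟨?_, ?_, ?_, ?_, ?_, ?_⟩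
  · intro u v hu hv; rw [cm_invol hu hv]; exact p4 u v hu hv
  · intro u v hu hv; rw [cm_invol hu hv]; exact comm_l hu hv (p4 u v hu hv)
  · intro u v hu hv; rw [cm_invol hu hv]; exact comm_r hu hv (p4 u v hu hv)
  all_goals
    intro u v w hu hv hw
    have f := lemL3 Q h2 hP hu hv hw
    have m1 : u ∈ closure {u, v, w} := subset_closure (by simp)
    have m2 : v ∈ closure {u, v, w} := subset_closure (by simp)
    have m3 : w ∈ closure {u, v, w} := subset_closure (by simp)
  · exact pp_use hP f m1 m2 m3 m1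
  · exact pp_use hP f m1 m2 m3 m2
  · exact pp_use hP f m1 m2 m3 m3

section facts
variable {Q : Type} [Group Q]

/-- `d u d = u * cm u d` -/
theorem conj_eq {u d : Q} (hu : u * u = 1) (hd : d * d = 1) : d * u * d = u * cm u d := by
  rw [cm_invol hu hd, pow_two]
  have e : ∀ z : Q, u * (u * z) = z := fun z => by rw [← mul_assoc, hu, one_mul]
  simp only [mul_assoc, e]

theorem comm_conj_iff {u v d : Q} (hd : d * d = 1) (h : Commute (d * u * d) v) :
    Commute u (d * v * d) := by
  have e : ∀ z : Q, d * (d * z) = z := fun z => by rw [← mul_assoc, hd, one_mul]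
  have e1 : u * (d * v * d) = d * ((d * u * d) * v) * d := by simp only [mul_assoc, e]
  have e2 : (d * v * d) * u = d * (v * (d * u * d)) * d := by
    simp only [mul_assoc, hd, mul_one]
  unfold Commute SemiconjBy
  rw [e1, e2, h.eq]

/-- symmetry in the last two letters -/
theorem sym34 (F : Fa Q) {y c d : Q} (hy : y * y = 1) (hc : c * c = 1) (hd : d * d = 1)
    (h : Commute y (cm c d)) : cm (cm y c) d = cm (cm y d) c := by
  obtain ⟨α, hα⟩ : ∃ α, α = cm y c := ⟨_, rfl⟩
  obtain ⟨β, hβ⟩ : ∃ β, β = cm y d := ⟨_, rfl⟩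
  have αα : α * α = 1 := by rw [hα]; exact F.sq y c hy hc
  have ββ : β * β = 1 := by rw [hβ]; exact F.sq y d hy hd
  have αy : Commute α y := by rw [hα]; exact F.cl y c hy hc
  have γy : Commute (cm α d) y := by rw [hα]; exact F.c1 y c d hy hc hd
  have h1 : Commute (d * α * d) y := by
    rw [conj_eq αα hd]; exact αy.mul_left γy
  have h3 : Commute α (d * y * d) := comm_conj_iff hd h1
  have αβ : Commute α β := by
    have : β = y * (d * y * d) := by
      rw [hβ, cm_invol hy hd, pow_two]; simp only [mul_assoc]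
    rw [this]; exact αy.mul_right h3
  rw [← hα, ← hβ]
  have hcc : ∀ z : Q, c * (c * z) = z := fun z => by rw [← mul_assoc, hc, one_mul]
  have hdd : ∀ z : Q, d * (d * z) = z := fun z => by rw [← mul_assoc, hd, one_mul]
  have hyy : ∀ z : Q, y * (y * z) = z := fun z => by rw [← mul_assoc, hy, one_mul]
  have e1 : d * (c * y * c) * d = y * β * (α * cm α d) := by
    rw [conj_eq hy hc, ← hα]
    have : d * (y * α) * d = (d * y * d) * (d * α * d) := by simp only [mul_assoc, hdd]
    rw [this, conj_eq hy hd, conj_eq αα hd, ← hβ]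
  have e2 : c * (d * y * d) * c = y * α * (β * cm β c) := by
    rw [conj_eq hy hd, ← hβ]
    have : c * (y * β) * c = (c * y * c) * (c * β * c) := by simp only [mul_assoc, hcc]
    rw [this, conj_eq hy hc, conj_eq ββ hc, ← hα]
  have e3 : d * (c * y * c) * d = c * (d * y * d) * c := by
    rw [cm_invol hc hd, pow_two] at h
    have h' : y * (c * d * (c * d)) = (c * d * (c * d)) * y := h.eq
    have : d * (c * y * c) * d = (d * c) * (y * (c * d * (c * d))) * (d * c) := by
      simp only [mul_assoc, hcc, hdd, hc, mul_one]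
    rw [this, h']
    simp only [mul_assoc, hcc, hdd]
  rw [e1, e2] at e3
  have e5 : y * β * (α * cm α d) = y * α * (β * cm α d) := by
    calc y * β * (α * cm α d) = y * (β * α) * cm α d := by simp only [mul_assoc]
      _ = y * (α * β) * cm α d := by rw [αβ.eq]
      _ = y * α * (β * cm α d) := by simp only [mul_assoc]
  rw [e5] at e3
  exact mul_left_cancel (mul_left_cancel e3)

theorem jac (F : Fa Q) {a b c : Q} (ha : a * a = 1) (hb : b * b = 1) (hc : c * c = 1) :
    Commute (cm (cm b c) a) (cm (cm c a) b) ∧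
    cm (cm a b) c = cm (cm b c) a * cm (cm c a) b := by
  have haa : ∀ z : Q, a * (a * z) = z := fun z => by rw [← mul_assoc, ha, one_mul]
  have hbb : ∀ z : Q, b * (b * z) = z := fun z => by rw [← mul_assoc, hb, one_mul]
  have hcc : ∀ z : Q, c * (c * z) = z := fun z => by rw [← mul_assoc, hc, one_mul]
  have key : ∀ u v w : Q, u * u = 1 → v * v = 1 → w * w = 1 →
      cm (cm u v) w = (v * u * v * u) * w * (u * v * u * v) * w := by
    intro u v w hu hv hw
    rw [cm_invol (F.sq u v hu hv) hw, pow_two]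
    nth_rewrite 1 [F.symm hu hv]
    rw [cm_invol hv hu, cm_invol hu hv, pow_two, pow_two]
    simp only [mul_assoc]
  obtain ⟨A, hA⟩ : ∃ A, A = cm (cm a b) c := ⟨_, rfl⟩
  obtain ⟨B, hB⟩ : ∃ B, B = cm (cm b c) a := ⟨_, rfl⟩
  obtain ⟨C, hC⟩ : ∃ C, C = cm (cm c a) b := ⟨_, rfl⟩
  have Ab : Commute A b := by rw [hA]; exact F.c2 a b c ha hb hc
  have Bc : Commute B c := by rw [hB]; exact F.c2 b c a hb hc ha
  have Bb : Commute B b := by rw [hB]; exact F.c1 b c a hb hc ha
  have Ba : Commute B a := by rw [hB]; exact F.c3 b c a hb hc ha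
  have Ca : Commute C a := by rw [hC]; exact F.c2 c a b hc ha hb
  have BB : B * B = 1 := by rw [hB]; exact F.sq _ _ (F.sq b c hb hc) ha
  have CC : C * C = 1 := by rw [hC]; exact F.sq _ _ (F.sq c a hc ha) hb
  have BC : Commute B C := by
    rw [hC]; exact (cm_comm (cm_comm Bc.symm Ba.symm) Bb.symm).symm
  have hw : (b * A * b) * (c * B * c) * (a * C * a) = 1 := by
    rw [hA, hB, hC, key a b c ha hb hc, key b c a hb hc ha, key c a b hc ha hb]
    simp only [mul_assoc, haa, hbb, hcc, ha, hb, hc]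
  have e1 : b * A * b = A := by rw [← Ab.eq, mul_assoc, hb, mul_one]
  have e2 : c * B * c = B := by rw [← Bc.eq, mul_assoc, hc, mul_one]
  have e3 : a * C * a = C := by rw [← Ca.eq, mul_assoc, ha, mul_one]
  rw [e1, e2, e3] at hw
  rw [← hA, ← hB, ← hC]
  refine ⟨BC, ?_⟩
  have e4 : A * B = C := eq_of_mul_one CC hw
  calc A = A * (B * B) := by rw [BB, mul_one]
    _ = (A * B) * B := by rw [mul_assoc]
    _ = C * B := by rw [e4]
    _ = B * C := BC.eq.symm

theorem cm_mul_l {u v w : Q} (h : Commute u w) : cm (u * v) w = u * cm v w * u⁻¹ := by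
  unfold cm
  have h1 : w * u⁻¹ * w⁻¹ = u⁻¹ := by rw [← h.inv_left.eq, mul_inv_cancel_right]
  calc u * v * w * (u * v)⁻¹ * w⁻¹ = u * (v * w * v⁻¹ * w⁻¹) * (w * u⁻¹ * w⁻¹) := by group
    _ = u * (v * w * v⁻¹ * w⁻¹) * u⁻¹ := by rw [h1]

theorem eps_conj (F : Fa Q) {u v d : Q} (hu : u * u = 1) (hv : v * v = 1) (hd : d * d = 1)
    (huv : Commute u v) : cm (d * u * d) v = cm (cm u d) v := by
  have h1 : Commute (cm (cm u d) v) u := F.c1 u d v hu hd hv
  have h3 : cm u d = u * (d * u * d) := by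
    rw [cm_invol hu hd, pow_two]; simp only [mul_assoc]
  have h4 : cm (cm u d) v = u * cm (d * u * d) v * u⁻¹ := by
    nth_rewrite 1 [h3]
    exact cm_mul_l huv
  have h5 : cm (d * u * d) v = u⁻¹ * cm (cm u d) v * u := by rw [h4]; group
  rw [h5, mul_assoc, h1.eq, inv_mul_cancel_left]

theorem eps_sym (F : Fa Q) {u v d : Q} (hu : u * u = 1) (hv : v * v = 1) (hd : d * d = 1)
    (huv : Commute u v) : cm (cm u d) v = cm (cm v d) u := by
  have h1 := eps_conj F hu hv hd huv
  have h3 := eps_conj F hv hu hd huv.symm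
  have hdi : d⁻¹ = d := inv_eq_of_mul_eq_one_right hd
  have ed : Commute (cm (cm u d) v) d := F.c2 u d v hu hd hv
  have ee : cm (cm u d) v * cm (cm u d) v = 1 := F.sq _ _ (F.sq u d hu hd) hv
  have h4 : cm (d * v * d) u = d * cm v (d * u * d) * d := by
    unfold cm
    simp only [mul_inv_rev, hdi]
    have hdd : ∀ z : Q, d * (d * z) = z := fun z => by rw [← mul_assoc, hd, one_mul]
    simp only [mul_assoc, hdd, hd, mul_one]
  rw [← h3, h4, ← cm_inv (d * u * d) v, h1, inv_eq_of_mul_eq_one_right ee, ← ed.eq, mul_assoc, hd,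
    mul_one]

theorem cm_mul_r {x y z : Q} : cm x (y * z) = cm x y * (y * cm x z * y⁻¹) := by
  unfold cm; group

/-- `[[a,b],[c,d]] = 1` -/
theorem mfact (F : Fa Q) {a b c d : Q} (ha : a * a = 1) (hb : b * b = 1) (hc : c * c = 1)
    (hd : d * d = 1)
    (hcen : ∀ y : Q, Commute y a → Commute y b → Commute y c → Commute y d → y = 1) :
    Commute (cm a b) (cm c d) := by
  apply cm_eq_one.1
  have h1 : (cm (cm c d) (cm a b))⁻¹ = cm (cm a b) (cm c d) := cm_inv _ _
  have s1 := F.sq a b ha hb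
  have s2 := F.sq c d hc hd
  apply hcen
  · exact F.c1 a b _ ha hb s2
  · exact F.c2 a b _ ha hb s2
  · rw [← h1]; exact (F.c1 c d _ hc hd s1).inv_left
  · rw [← h1]; exact (F.c2 c d _ hc hd s1).inv_left

theorem Ta (F : Fa Q) {a b c d : Q} (ha : a * a = 1) (hb : b * b = 1) (hc : c * c = 1)
    (hd : d * d = 1)
    (hcen : ∀ y : Q, Commute y a → Commute y b → Commute y c → Commute y d → y = 1) :
    Commute (cm (cm (cm a b) c) d) a := by
  obtain ⟨uc, huc⟩ : ∃ u, u = cm (cm a b) c := ⟨_, rfl⟩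
  obtain ⟨ua, hua⟩ : ∃ u, u = cm (cm b c) a := ⟨_, rfl⟩
  obtain ⟨ub, hub⟩ : ∃ u, u = cm (cm c a) b := ⟨_, rfl⟩
  have sab := F.sq a b ha hb
  have sbc := F.sq b c hb hc
  have sca := F.sq c a hc ha
  have suc : uc * uc = 1 := by rw [huc]; exact F.sq _ _ sab hc
  have sua : ua * ua = 1 := by rw [hua]; exact F.sq _ _ sbc ha
  have sub : ub * ub = 1 := by rw [hub]; exact F.sq _ _ sca hb
  obtain ⟨hab, huc2⟩ := jac F ha hb hc
  rw [← hua, ← hub] at hab huc2
  rw [← huc] at huc2
  have hac : Commute ua uc := by rw [huc2]; exact (Commute.refl ua).mul_right hab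
  -- ε
  obtain ⟨e, he⟩ : ∃ e, e = cm (cm ua d) ub := ⟨_, rfl⟩
  have e1 : e = 1 := by
    apply hcen
    · rw [he]; apply cm_comm
      · rw [hua]; exact F.c2 (cm b c) a d sbc ha hd
      · rw [hub]; exact F.c2 c a b hc ha hb
    · rw [he, eps_sym F sua sub hd hab]; apply cm_comm
      · rw [hub]; exact F.c2 (cm c a) b d sca hb hd
      · rw [hua]; exact F.c1 b c a hb hc ha
    · have h1 : cm (cm ua d) uc = e := by
        rw [huc2, cm_mul_r, ← he]
        have h3 : cm (cm ua d) ua = 1 := cm_eq_one.2 (F.cl ua d sua hd)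
        have h4 : Commute e ua := by rw [he]; exact F.c1 ua d ub sua hd sub
        rw [h3, one_mul, ← h4.eq, mul_inv_cancel_right]
      rw [← h1, eps_sym F sua suc hd hac]; apply cm_comm
      · rw [huc]; exact F.c2 (cm a b) c d sab hc hd
      · rw [hua]; exact F.c2 b c a hb hc ha
    · rw [he]; exact F.c2 ua d ub sua hd sub
  have h1 : Commute (d * ua * d) ub := by
    apply cm_eq_one.1
    rw [eps_conj F sua sub hd hab, ← he]; exact e1
  have hdd : ∀ z : Q, d * (d * z) = z := fun z => by rw [← mul_assoc, hd, one_mul]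
  obtain ⟨ta, hta⟩ : ∃ u, u = cm ua d := ⟨_, rfl⟩
  obtain ⟨tb, htb⟩ : ∃ u, u = cm ub d := ⟨_, rfl⟩
  obtain ⟨tc, htc⟩ : ∃ u, u = cm uc d := ⟨_, rfl⟩
  have sta : ta * ta = 1 := by rw [hta]; exact F.sq _ _ sua hd
  have stb : tb * tb = 1 := by rw [htb]; exact F.sq _ _ sub hd
  have stc : tc * tc = 1 := by rw [htc]; exact F.sq _ _ suc hd
  have h3 : tc = ta * tb := by
    have f : ∀ u : Q, u * u = 1 → cm u d = u * (d * u * d) := by
      intro u hu; rw [cm_invol hu hd, pow_two]; simp only [mul_assoc]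
    rw [htc, hta, htb, f uc suc, f ua sua, f ub sub, huc2]
    calc ua * ub * (d * (ua * ub) * d) = ua * (ub * (d * ua * d)) * (d * ub * d) := by
          simp only [mul_assoc, hdd]
      _ = ua * ((d * ua * d) * ub) * (d * ub * d) := by rw [h1.eq]
      _ = ua * (d * ua * d) * (ub * (d * ub * d)) := by simp only [mul_assoc]
  have h4 : Commute ta tb := by
    apply (commute_iff_sq sta stb).1
    rw [← h3, pow_two]; exact stc
  have taa : Commute ta a := by rw [hta, hua]; exact F.c2 (cm b c) a d sbc ha hd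
  have h5 : cm tc a = cm tb a := by
    rw [h3, cm_mul_l taa]
    have : Commute (cm tb a) ta := cm_comm h4.symm taa.symm
    rw [← this.eq, mul_inv_cancel_right]
  have m1 : Commute (cm a b) (cm c d) := mfact F ha hb hc hd hcen
  have m2 : Commute (cm c a) (cm b d) := mfact F hc ha hb hd (by
    intro y h1 h3 h4 h5; exact hcen y h3 h4 h1 h5)
  have s1 := sym34 F sab hc hd m1
  have s2 := sym34 F sca hb hd m2
  have g1 : cm tc a = 1 := by
    apply hcen
    · rw [htc]; exact F.c3 uc d a suc hd ha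
    · rw [h5, htb, hub, s2]; exact F.c2 _ b a (F.sq _ _ sca hd) hb ha
    · rw [htc, huc, s1]; exact F.c2 _ c a (F.sq _ _ sab hd) hc ha
    · rw [htc]; exact F.c2 uc d a suc hd ha
  rw [← huc, ← htc]
  exact cm_eq_one.1 g1

theorem T1 (F : Fa Q) {a b c d : Q} (ha : a * a = 1) (hb : b * b = 1) (hc : c * c = 1)
    (hd : d * d = 1)
    (hcen : ∀ y : Q, Commute y a → Commute y b → Commute y c → Commute y d → y = 1) :
    cm (cm (cm a b) c) d = 1 := by
  apply hcen
  · exact Ta F ha hb hc hd hcen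
  · have := Ta F hb ha hc hd (by intro y h1 h3 h4 h5; exact hcen y h3 h1 h4 h5)
    rw [F.symm hb ha] at this
    exact this
  · exact F.c2 _ c d (F.sq a b ha hb) hc hd
  · exact F.c3 _ c d (F.sq a b ha hb) hc hd

theorem T2 (F : Fa Q) {a b c d : Q} (ha : a * a = 1) (hb : b * b = 1) (hc : c * c = 1)
    (hd : d * d = 1)
    (hcen : ∀ y : Q, Commute y a → Commute y b → Commute y c → Commute y d → y = 1) :
    Commute a b := by
  have t1 : cm (cm a b) c = 1 := by
    apply hcen
    · exact F.c1 a b c ha hb hc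
    · exact F.c2 a b c ha hb hc
    · exact F.c3 a b c ha hb hc
    · exact cm_eq_one.1 (T1 F ha hb hc hd hcen)
  have t2 : cm (cm a b) d = 1 := by
    apply hcen
    · exact F.c1 a b d ha hb hd
    · exact F.c2 a b d ha hb hd
    · exact cm_eq_one.1 (T1 F ha hb hd hc (by
        intro y h1 h3 h4 h5; exact hcen y h1 h3 h5 h4))
    · exact F.c3 a b d ha hb hd
  apply cm_eq_one.1
  apply hcen
  · exact F.cl a b ha hb
  · exact F.cr a b ha hb
  · exact cm_eq_one.1 t1
  · exact cm_eq_one.1 t2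

theorem T3 (F : Fa Q) {a b c d : Q} (ha : a * a = 1) (hb : b * b = 1) (hc : c * c = 1)
    (hd : d * d = 1)
    (hcen : ∀ y : Q, Commute y a → Commute y b → Commute y c → Commute y d → y = 1) :
    a = 1 := by
  apply hcen
  · exact Commute.refl _
  · exact T2 F ha hb hc hd hcen
  · exact T2 F ha hc hb hd (by intro y h1 h3 h4 h5; exact hcen y h1 h4 h3 h5)
  · exact T2 F ha hd hb hc (by intro y h1 h3 h4 h5; exact hcen y h1 h4 h5 h3)

end facts

/-- four involutions generate a finite group -/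
theorem lemL4 (G : Type) [Group G] (h2 : IsPGroup 2 G) (hP : PP G) {a b c d : G}
    (ha : a * a = 1) (hb : b * b = 1) (hc : c * c = 1) (hd : d * d = 1) :
    (closure {a, b, c, d} : Set G).Finite := by
  apply reduce4 {w | w = .of 0 * .of 0 ∨ w = .of 1 * .of 1 ∨ w = .of 2 * .of 2 ∨
    w = .of 3 * .of 3} _ G h2 hP a b c d
  · rintro y (rfl | rfl | rfl | rfl)
    · simpa using ha
    · simpa using hb
    · simpa using hc
    · simpa using hd
  · clear ha hb hc hd h2 hP a b c d
    intro Q _ h2 hP hR a b c d hr hS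
    simp only [Set.mem_ofPred_eq, forall_eq_or_imp, forall_eq, map_mul,
      FreeGroup.lift_apply_of] at hr
    obtain ⟨ha, hb, hc, hd⟩ := hr
    change a * a = 1 at ha
    change b * b = 1 at hb
    change c * c = 1 at hc
    change d * d = 1 at hd
    have hcen : ∀ y : Q, Commute y a → Commute y b → Commute y c → Commute y d → y = 1 := by
      intro y h1 h3 h4 h5
      apply central_one' h2 hR hS
      rintro g (rfl | rfl | rfl | rfl) <;> assumption
    have F := mkFa Q h2 hP hR hS (by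
      rintro g (rfl | rfl | rfl | rfl) <;> assumption)
    have a1 : a = 1 := T3 F ha hb hc hd hcen
    have b1 : b = 1 := T3 F hb ha hc hd (by
      intro y h1 h3 h4 h5; exact hcen y h3 h1 h4 h5)
    have c1 : c = 1 := T3 F hc ha hb hd (by
      intro y h1 h3 h4 h5; exact hcen y h3 h4 h1 h5)
    have d1 : d = 1 := T3 F hd ha hb hc (by
      intro y h1 h3 h4 h5; exact hcen y h3 h4 h5 h1)
    apply fin_of_top hS (K := ⊥) (by simp)
    rintro y (rfl | rfl | rfl | rfl)
    · rw [a1]; exact one_mem _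
    · rw [b1]; exact one_mem _
    · rw [c1]; exact one_mem _
    · rw [d1]; exact one_mem _

end Pool.Agent.H532G2
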