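import Pool.Agent.H532G2.Tools

set_option autoImplicit false

namespace Pool.Agent.H532G2

open Subgroup

theorem range3 {G : Type} (a b c : G) : Set.range ![a, b, c] = {a, b, c} := by
  ext x
  simp only [Set.mem_range, Fin.exists_fin_succ, Matrix.cons_val_zero, Matrix.cons_val_succ,
    Set.mem_insert_iff, Set.mem_singleton_iff, IsEmpty.exists_iff, or_false]
  constructor
  · rintro (h | h | h)
    · exact Or.inl h.symm
    · exact Or.inr (Or.inl h.symm)
    · exact Or.inr (Or.inr h.symm)
  · rintro (h | h | h)
    · exact Or.inl h.symm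
    · exact Or.inr (Or.inl h.symm)
    · exact Or.inr (Or.inr h.symm)

theorem range4 {G : Type} (a b c d : G) : Set.range ![a, b, c, d] = {a, b, c, d} := by
  ext x
  simp only [Set.mem_range, Fin.exists_fin_succ, Matrix.cons_val_zero, Matrix.cons_val_succ,
    Set.mem_insert_iff, Set.mem_singleton_iff, IsEmpty.exists_iff, or_false]
  constructor
  · rintro (h | h | h | h)
    · exact Or.inl h.symm
    · exact Or.inr (Or.inl h.symm)
    · exact Or.inr (Or.inr (Or.inl h.symm))
    · exact Or.inr (Or.inr (Or.inr h.symm))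
  · rintro (h | h | h | h)
    · exact Or.inl h.symm
    · exact Or.inr (Or.inl h.symm)
    · exact Or.inr (Or.inr (Or.inl h.symm))
    · exact Or.inr (Or.inr (Or.inr h.symm))

theorem reduce3 (R : Set (FreeGroup (Fin 3)))
    (hmain : ∀ (Q : Type) [Group Q], IsPGroup 2 Q → PP Q → Red Q → ∀ a b c : Q,
      (∀ w ∈ R, FreeGroup.lift ![a, b, c] w = 1) → closure {a, b, c} = ⊤ → Finite Q)
    (G : Type) [Group G] (h2 : IsPGroup 2 G) (hP : PP G) (a b c : G)
    (h : ∀ w ∈ R, FreeGroup.lift ![a, b, c] w = 1) : (closure {a, b, c} : Set G).Finite := by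
  have := reduce R (by
    intro Q _ h2 hP hR s hs hcl
    have e : s = ![s 0, s 1, s 2] := by
      ext i; fin_cases i <;> rfl
    apply hmain Q h2 hP hR (s 0) (s 1) (s 2)
    · rw [← e]; exact hs
    · rw [← range3, ← e]; exact hcl) G h2 hP ![a, b, c] h
  rw [range3] at this
  exact this

theorem reduce4 (R : Set (FreeGroup (Fin 4)))
    (hmain : ∀ (Q : Type) [Group Q], IsPGroup 2 Q → PP Q → Red Q → ∀ a b c d : Q,
      (∀ w ∈ R, FreeGroup.lift ![a, b, c, d] w = 1) → closure {a, b, c, d} = ⊤ → Finite Q)
    (G : Type) [Group G] (h2 : IsPGroup 2 G) (hP : PP G) (a b c d : G)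
    (h : ∀ w ∈ R, FreeGroup.lift ![a, b, c, d] w = 1) :
    (closure {a, b, c, d} : Set G).Finite := by
  have := reduce R (by
    intro Q _ h2 hP hR s hs hcl
    have e : s = ![s 0, s 1, s 2, s 3] := by
      ext i; fin_cases i <;> rfl
    apply hmain Q h2 hP hR (s 0) (s 1) (s 2) (s 3)
    · rw [← e]; exact hs
    · rw [← range4, ← e]; exact hcl) G h2 hP ![a, b, c, d] h
  rw [range4] at this
  exact this

theorem fin_of_top {Q : Type} [Group Q] {S : Set Q} (hS : closure S = ⊤) {K : Subgroup Q}
    (hK : (K : Set Q).Finite) (h : S ⊆ (K : Set Q)) : Finite Q := by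
  have h1 : closure S ≤ K := (closure_le K).2 h
  rw [hS, top_le_iff] at h1
  rw [h1] at hK
  have h4 : (Set.univ : Set Q).Finite := by simpa using hK
  exact Set.finite_univ_iff.1 h4

theorem eq_of_mul_one {G : Type} [Group G] {v p : G} (hp : p * p = 1) (h : v * p = 1) : v = p := by
  calc v = v * (p * p) := by rw [hp, mul_one]
    _ = (v * p) * p := by rw [mul_assoc]
    _ = p := by rw [h, one_mul]

theorem conj_sq {G : Type} [Group G] {u w : G} (hu : u * u = 1) (hw : w * w = 1) :
    (w * u * w) * (w * u * w) = 1 := by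
  have hww : ∀ x : G, w * (w * x) = x := fun x => by rw [← mul_assoc, hw, one_mul]
  have huu : ∀ x : G, u * (u * x) = x := fun x => by rw [← mul_assoc, hu, one_mul]
  simp only [mul_assoc, hww, huu, hw]

/-- `u` commutes with `wuw` if `(uw)^4 = 1` -/
theorem comm_conj {G : Type} [Group G] {u w : G} (hu : u * u = 1) (hw : w * w = 1)
    (h : (u * w) ^ 4 = 1) : Commute u (w * u * w) := by
  rw [← commute_iff_sq hu (conj_sq hu hw)]
  have : u * (w * u * w) = (u * w) ^ 2 := by rw [pow_two]; simp only [mul_assoc]
  rw [this, ← pow_mul]; exact h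

theorem lemE (G : Type) [Group G] (h2 : IsPGroup 2 G) (hP : PP G) {u v w : G}
    (hu : u * u = 1) (hv : v * v = 1) (hw : w * w = 1) (huv : Commute u v)
    (huw : (u * w) ^ 4 = 1) (hvw : (v * w) ^ 4 = 1) :
    (closure {u, v, w} : Set G).Finite := by
  apply reduce3 {w | w = .of 0 * .of 0 ∨ w = .of 1 * .of 1 ∨ w = .of 2 * .of 2 ∨
    w = (.of 0 * .of 1) ^ 2 ∨ w = (.of 0 * .of 2) ^ 4 ∨ w = (.of 1 * .of 2) ^ 4} _ G h2 hP u v w
  · rintro x (rfl | rfl | rfl | rfl | rfl | rfl)
    · simpa using hu
    · simpa using hv
    · simpa using hw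
    · simpa using (commute_iff_sq hu hv).2 huv
    · simpa using huw
    · simpa using hvw
  · clear hu hv hw huv huw hvw h2 hP u v w
    intro Q _ h2 hP hR u v w hr hS
    simp only [Set.mem_setOf_eq, forall_eq_or_imp, forall_eq, map_mul, map_pow,
      FreeGroup.lift_apply_of] at hr
    obtain ⟨hu, hv, hw, huv, huw, hvw⟩ := hr
    change u * u = 1 at hu
    change v * v = 1 at hv
    change w * w = 1 at hw
    change (u * v) ^ 2 = 1 at huv
    change (u * w) ^ 4 = 1 at huw
    change (v * w) ^ 4 = 1 at hvw
    replace huv : Commute u v := (commute_iff_sq hu hv).1 huv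
    have hww : ∀ x : Q, w * (w * x) = x := fun x => by rw [← mul_assoc, hw, one_mul]
    obtain ⟨p, hp⟩ : ∃ p, p = w * u * w := ⟨_, rfl⟩
    obtain ⟨q, hq⟩ : ∃ q, q = w * v * w := ⟨_, rfl⟩
    have hpp : p * p = 1 := by rw [hp]; exact conj_sq hu hw
    have hqq : q * q = 1 := by rw [hq]; exact conj_sq hv hw
    have hup : Commute u p := by rw [hp]; exact comm_conj hu hw huw
    have hvq : Commute v q := by rw [hq]; exact comm_conj hv hw hvw
    have hpq : Commute p q := by
      have : p * q = q * p := by
        rw [hp, hq]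
        simp only [mul_assoc, hww]
        rw [← mul_assoc u v, huv.eq, mul_assoc]
      exact this
    have hwpw : w * p * w = u := by rw [hp]; simp only [mul_assoc, hww, hw, mul_one]
    have hwqw : w * q * w = v := by rw [hq]; simp only [mul_assoc, hww, hw, mul_one]
    have hτσ : Commute (v * p) (q * u) :=
      (hvq.mul_left hpq).mul_right ((huv.symm).mul_left hup.symm)
    have hS2 : ∀ g ∈ ({u, v, w} : Set Q), g * g = 1 := by
      rintro g (rfl | rfl | rfl) <;> assumption
    have key := abel_gens_one h2 hR hS hS2 (T := {v * p, q * u}) (by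
      have m1 : v * p ∈ closure {v * p, q * u} := subset_closure (by simp)
      have m2 : q * u ∈ closure {v * p, q * u} := subset_closure (by simp)
      have e1 : (v * p)⁻¹ = p * v := by
        rw [mul_inv_rev, inv_eq_of_mul_eq_one_right hpp, inv_eq_of_mul_eq_one_right hv]
      have e2 : (q * u)⁻¹ = u * q := by
        rw [mul_inv_rev, inv_eq_of_mul_eq_one_right hqq, inv_eq_of_mul_eq_one_right hu]
      rintro g (rfl | rfl | rfl) t (rfl | rfl)
      · -- u (v p) u = v p
        have : g * (v * p) * g = v * p := by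
          rw [← mul_assoc, huv.eq, mul_assoc v, hup.eq, ← mul_assoc, mul_assoc, hu, mul_one]
        rw [this]; exact m1
      · have : g * (q * g) * g = g * q := by
          rw [mul_assoc, mul_assoc, hu, mul_one]
        rw [this, ← e2]; exact inv_mem m2
      · have : g * (g * p) * g = p * g := by
          rw [← mul_assoc, hv, one_mul]
        rw [this, ← e1]; exact inv_mem m1
      · have : g * (q * u) * g = q * u := by
          rw [← mul_assoc, hvq.eq, mul_assoc q, ← huv.eq, ← mul_assoc, mul_assoc, hv, mul_one]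
        rw [this]; exact m2
      · have : g * (v * p) * g = q * u := by
          have : g * (v * p) * g = (g * v * g) * (g * p * g) := by
            simp only [mul_assoc, hww]
          rw [this, hwpw, ← hq]
        rw [this]; exact m2
      · have : g * (q * u) * g = v * p := by
          have : g * (q * u) * g = (g * q * g) * (g * u * g) := by
            simp only [mul_assoc, hww]
          rw [this, hwqw, ← hp]
        rw [this]; exact m1) (by
      rintro x (rfl | rfl) y (rfl | rfl)
      · exact Commute.refl _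
      · exact hτσ
      · exact hτσ.symm
      · exact Commute.refl _)
    have hvp : v = p := eq_of_mul_one hpp (key (v * p) (by simp))
    apply fin_of_top hS (dih_fin h2 hu hw)
    have mu : u ∈ closure {u, w} := subset_closure (by simp)
    have mw : w ∈ closure {u, w} := subset_closure (by simp)
    rintro x (rfl | rfl | rfl)
    · exact mu
    · rw [hvp, hp]; exact mul_mem (mul_mem mw mu) mw
    · exact mw

end Pool.Agent.H532G2
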