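import Pool.Agent.H532G2.LemP

set_option autoImplicit false

namespace Pool.Agent.H532G2

open Subgroup

theorem cm_mul_left_of_comm {G : Type} [Group G] {u v w : G} (h : Commute v w) :
    cm (u * v) w = cm u w := by
  unfold cm
  have h1 : v * w * v⁻¹ = w := by rw [h.eq, mul_inv_cancel_right]
  calc u * v * w * (u * v)⁻¹ * w⁻¹ = u * (v * w * v⁻¹) * u⁻¹ * w⁻¹ := by group
    _ = u * w * u⁻¹ * w⁻¹ := by rw [h1]

theorem conj_closure {G : Type} [Group G] {c : G} (hc : c * c = 1) {T : Set G}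
    (h : ∀ t ∈ T, c * t * c ∈ closure T) : ∀ k ∈ closure T, c * k * c ∈ closure T := by
  have hci : c⁻¹ = c := inv_eq_of_mul_eq_one_right hc
  intro k hk
  induction hk using closure_induction with
  | mem t ht => exact h t ht
  | one => rw [mul_one, hc]; exact one_mem _
  | mul a b _ _ ha hb =>
    have : c * (a * b) * c = (c * a * c) * (c * b * c) := by
      have hcc : ∀ x : G, c * (c * x) = x := fun x => by rw [← mul_assoc, hc, one_mul]
      simp only [mul_assoc, hcc]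
    rw [this]; exact mul_mem ha hb
  | inv a _ ha =>
    have : c * a⁻¹ * c = (c * a * c)⁻¹ := by
      rw [mul_inv_rev, mul_inv_rev, hci, mul_assoc]
    rw [this]; exact inv_mem ha

/-- conjugates of `a` by powers of `r` -/
def ff {G : Type} [Group G] (a r : G) (i : ℤ) : G := r ^ (-i) * a * r ^ i

section ffl
variable {G : Type} [Group G] {a x c : G}

theorem ff_sq (ha : a * a = 1) (r : G) (i : ℤ) : ff a r i * ff a r i = 1 := by
  unfold ff
  have : r ^ (-i) * a * r ^ i * (r ^ (-i) * a * r ^ i) = r ^ (-i) * (a * a) * r ^ i := by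
    rw [zpow_neg]; group
  rw [this, ha, mul_one, ← zpow_add]; simp

theorem ff_add (a r : G) (i k : ℤ) : ff a r (i + k) = (r ^ k)⁻¹ * ff a r i * r ^ k := by
  unfold ff
  rw [← zpow_neg, neg_add, zpow_add, zpow_add]
  have : r ^ (-i) * r ^ (-k) = r ^ (-k) * r ^ (-i) := by
    rw [← zpow_add, ← zpow_add, add_comm]
  rw [this]
  simp only [mul_assoc]

theorem ff_zero (a r : G) : ff a r 0 = a := by simp [ff]

theorem ff_per {r : G} (h8 : r ^ 8 = 1) (a : G) (i k : ℤ) : ff a r (i + 8 * k) = ff a r i := by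
  rw [ff_add]
  have : r ^ (8 * k) = 1 := by
    rw [zpow_mul]
    have : r ^ (8 : ℤ) = 1 := by exact_mod_cast h8
    rw [this, one_zpow]
  rw [this]; simp

theorem ff_comm_shift (a r : G) {i j : ℤ} (k : ℤ) (h : Commute (ff a r i) (ff a r j)) :
    Commute (ff a r (i + k)) (ff a r (j + k)) := by
  rw [ff_add, ff_add]
  have h1 : (r ^ k)⁻¹ * ff a r i * r ^ k * ((r ^ k)⁻¹ * ff a r j * r ^ k)
      = (r ^ k)⁻¹ * (ff a r i * ff a r j) * r ^ k := by group
  have h2 : (r ^ k)⁻¹ * ff a r j * r ^ k * ((r ^ k)⁻¹ * ff a r i * r ^ k)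
      = (r ^ k)⁻¹ * (ff a r j * ff a r i) * r ^ k := by group
  unfold Commute SemiconjBy
  rw [h1, h2, h.eq]

theorem x_conj (hx : x * x = 1) (hc : c * c = 1) (i : ℤ) :
    x * (x * c) ^ i * x = (x * c) ^ (-i) := by
  have hxi : x⁻¹ = x := inv_eq_of_mul_eq_one_right hx
  have hci : c⁻¹ = c := inv_eq_of_mul_eq_one_right hc
  have h1 : x * (x * c) * x⁻¹ = (x * c)⁻¹ := by
    rw [mul_inv_rev, hxi, hci, ← mul_assoc, hx, one_mul]
  have h3 : x * (x * c) ^ i * x⁻¹ = ((x * c)⁻¹) ^ i := by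
    rw [← h1, conj_zpow]
  rw [hxi] at h3
  rw [h3, inv_zpow, zpow_neg]

theorem ff_x (hx : x * x = 1) (hc : c * c = 1) (hax : Commute a x) (i : ℤ) :
    x * ff a (x * c) i * x = ff a (x * c) (-i) := by
  have hxx : ∀ y : G, x * (x * y) = y := fun y => by rw [← mul_assoc, hx, one_mul]
  unfold ff
  have e : x * ((x * c) ^ (-i) * a * (x * c) ^ i) * x
      = (x * (x * c) ^ (-i) * x) * (x * a * x) * (x * (x * c) ^ i * x) := by
    simp only [mul_assoc, hxx]
  rw [e, x_conj hx hc, x_conj hx hc]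
  have : x * a * x = a := by rw [← hax.eq, mul_assoc, hx, mul_one]
  rw [this]

/-- the reflection `x r^k` acts by `i ↦ k - i` -/
theorem ff_refl (hx : x * x = 1) (hc : c * c = 1) (hax : Commute a x) (k i : ℤ) :
    (x * (x * c) ^ k) * ff a (x * c) i * (x * (x * c) ^ k) = ff a (x * c) (k - i) := by
  have hxx : ∀ y : G, x * (x * y) = y := fun y => by rw [← mul_assoc, hx, one_mul]
  have e1 : x * (x * c) ^ k = (x * c) ^ (-k) * x := by
    rw [← x_conj hx hc]; simp only [mul_assoc, hx, mul_one]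
  have e2 : (x * (x * c) ^ k) * ff a (x * c) i * (x * (x * c) ^ k)
      = x * ((x * c) ^ k * ff a (x * c) i * (x * c) ^ (-k)) * x := by
    nth_rewrite 2 [e1]
    simp only [mul_assoc]
  rw [e2]
  have e3 : (x * c) ^ k * ff a (x * c) i * (x * c) ^ (-k) = ff a (x * c) (i + (-k)) := by
    rw [ff_add, zpow_neg, inv_inv]
  rw [e3, ff_x hx hc hax]
  congr 1; ring

theorem refl_sq (hx : x * x = 1) (hc : c * c = 1) (k : ℤ) :
    (x * (x * c) ^ k) * (x * (x * c) ^ k) = 1 := by
  rw [← mul_assoc, x_conj hx hc, ← zpow_add]; simp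

theorem ff_c (hx : x * x = 1) (hc : c * c = 1) (hax : Commute a x) (i : ℤ) :
    c * ff a (x * c) i * c = ff a (x * c) (1 - i) := by
  have h := ff_refl hx hc hax 1 i
  have : x * (x * c) ^ (1 : ℤ) = c := by rw [zpow_one, ← mul_assoc, hx, one_mul]
  rw [this] at h
  exact h

theorem ff_pow4 (h2 : IsPGroup 2 G) (hP : PP G) (ha : a * a = 1) (hx : x * x = 1)
    (hc : c * c = 1) (hax : Commute a x) (i j : ℤ) :
    (ff a (x * c) i * ff a (x * c) j) ^ 4 = 1 := by
  obtain ⟨r, hr⟩ : ∃ r, r = x * (x * c) ^ (i + j) := ⟨_, rfl⟩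
  have hrr : r * r = 1 := by rw [hr]; exact refl_sq hx hc _
  have h1 : r * ff a (x * c) i * r = ff a (x * c) j := by
    rw [hr, ff_refl hx hc hax]; congr 1; ring
  have h3 := pow8 h2 hP (ff_sq ha (x * c) i) hrr
  have h4 : ff a (x * c) i * ff a (x * c) j = (ff a (x * c) i * r) ^ 2 := by
    rw [← h1, pow_two]; simp only [mul_assoc]
  rw [h4, ← pow_mul]; exact h3

end ffl

end Pool.Agent.H532G2
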