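import Pool.Agent.H532G2.LemE

set_option autoImplicit false

namespace Pool.Agent.H532G2

open Subgroup

theorem cm_comm {G : Type} [Group G] {x y g : G} (hx : Commute x g) (hy : Commute y g) :
    Commute (cm x y) g := by
  unfold cm
  exact ((hx.mul_left hy).mul_left hx.inv_left).mul_left hy.inv_left

theorem pow_swap {G : Type} [Group G] {u v : G} (hu : u * u = 1) {n : ℕ}
    (h : (u * v) ^ n = 1) : (v * u) ^ n = 1 := by
  have hui : u⁻¹ = u := inv_eq_of_mul_eq_one_right hu
  have h1 : v * u = u * (u * v) * u⁻¹ := by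
    rw [hui, ← mul_assoc, hu, one_mul]
  rw [h1, conj_pow, h, mul_one, mul_inv_cancel]

theorem pow_two_two {G : Type} [Group G] {x : G} (h : x ^ 4 = 1) : x ^ 2 * x ^ 2 = 1 := by
  rw [← pow_add]; exact h

theorem pow_two_two' {G : Type} [Group G] {x : G} (h : x ^ 2 * x ^ 2 = 1) : x ^ 4 = 1 := by
  rw [← pow_add] at h; exact h

theorem PL_step (Q : Type) [Group Q] (h2 : IsPGroup 2 Q) (hP : PP Q) (hR : Red Q)
    {A B C D : Q} {S : Set Q} (hS : closure S = ⊤)
    (hS2 : ∀ g ∈ S, g = A ∨ g = B ∨ g = C ∨ g = D)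
    (hA : A * A = 1) (hB : B * B = 1) (hC : C * C = 1) (hD : D * D = 1)
    (hAB : Commute A B) (hBC : Commute B C) (hCD : Commute C D)
    (hAC : (A * C) ^ 4 = 1) (hBD : (B * D) ^ 4 = 1) (hAD : (A * D) ^ 4 = 1) :
    Commute B D := by
  have hcen : ∀ x : Q, Commute x A → Commute x B → Commute x C → Commute x D → x = 1 := by
    intro x h1 h3 h4 h5
    apply central_one' h2 hR hS
    intro g hg
    rcases hS2 g hg with rfl | rfl | rfl | rfl <;> assumption
  obtain ⟨q, hq⟩ : ∃ q, q = (B * D) ^ 2 := ⟨_, rfl⟩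
  have hqq : q * q = 1 := by rw [hq]; exact pow_two_two hBD
  have hqcm : cm B D = q := by rw [hq]; exact cm_invol hB hD
  have hqB : Commute q B := by rw [hq]; exact comm_l hB hD (by rw [← hq]; exact hqq)
  have hqD : Commute q D := by rw [hq]; exact comm_r hB hD (by rw [← hq]; exact hqq)
  have hqC : Commute q C := by rw [← hqcm]; exact cm_comm hBC hCD.symm
  have f1 := lemE Q h2 hP hA hB hD hAB hAD hBD
  have m1 : A ∈ closure {A, B, D} := subset_closure (by simp)
  have m2 : B ∈ closure {A, B, D} := subset_closure (by simp)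
  have m3 : D ∈ closure {A, B, D} := subset_closure (by simp)
  obtain ⟨k, hk⟩ : ∃ k, k = cm q A := ⟨_, rfl⟩
  have kA : Commute k A := by rw [hk, ← hqcm]; exact pp_use hP f1 m2 m3 m1 m1
  have kB : Commute k B := by rw [hk, ← hqcm]; exact pp_use hP f1 m2 m3 m1 m2
  have kD : Commute k D := by rw [hk, ← hqcm]; exact pp_use hP f1 m2 m3 m1 m3
  have hk' : k = (q * A) ^ 2 := by rw [hk]; exact cm_invol hqq hA
  have hkk : k * k = 1 := by
    rw [hk']; exact sq_of_comm hqq hA (by rw [← hk']; exact kA)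
  have hqA4 : (q * A) ^ 4 = 1 := pow_two_two' (by rw [← hk']; exact hkk)
  have f2 := lemE Q h2 hP hqq hC hA hqC hqA4 (pow_swap hA hAC)
  have n1 : q ∈ closure {q, C, A} := subset_closure (by simp)
  have n2 : C ∈ closure {q, C, A} := subset_closure (by simp)
  have n3 : A ∈ closure {q, C, A} := subset_closure (by simp)
  obtain ⟨l, hl⟩ : ∃ l, l = cm k C := ⟨_, rfl⟩
  have lA : Commute l A := by rw [hl, hk]; exact pp_use hP f2 n1 n3 n2 n3
  have lC : Commute l C := by rw [hl, hk]; exact pp_use hP f2 n1 n3 n2 n2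
  have lB : Commute l B := by rw [hl]; exact cm_comm kB hBC.symm
  have lD : Commute l D := by rw [hl]; exact cm_comm kD hCD
  have l1 : l = 1 := hcen l lA lB lC lD
  have kC : Commute k C := cm_eq_one.1 (by rw [← hl]; exact l1)
  have k1 : k = 1 := hcen k kA kB kC kD
  have qA : Commute q A := cm_eq_one.1 (by rw [← hk]; exact k1)
  have q1 : q = 1 := hcen q qA hqB hqC hqD
  exact (commute_iff_sq hB hD).1 (by rw [← hq]; exact q1)

theorem lemP (G : Type) [Group G] (h2 : IsPGroup 2 G) (hP : PP G) {A B C D : G}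
    (hA : A * A = 1) (hB : B * B = 1) (hC : C * C = 1) (hD : D * D = 1)
    (hAB : Commute A B) (hBC : Commute B C) (hCD : Commute C D)
    (hAC : (A * C) ^ 4 = 1) (hBD : (B * D) ^ 4 = 1) (hAD : (A * D) ^ 4 = 1) :
    (closure {A, B, C, D} : Set G).Finite := by
  apply reduce4 {w | w = .of 0 * .of 0 ∨ w = .of 1 * .of 1 ∨ w = .of 2 * .of 2 ∨
    w = .of 3 * .of 3 ∨ w = (.of 0 * .of 1) ^ 2 ∨ w = (.of 1 * .of 2) ^ 2 ∨
    w = (.of 2 * .of 3) ^ 2 ∨ w = (.of 0 * .of 2) ^ 4 ∨ w = (.of 1 * .of 3) ^ 4 ∨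
    w = (.of 0 * .of 3) ^ 4} _ G h2 hP A B C D
  · rintro x (rfl | rfl | rfl | rfl | rfl | rfl | rfl | rfl | rfl | rfl)
    · simpa using hA
    · simpa using hB
    · simpa using hC
    · simpa using hD
    · simpa using (commute_iff_sq hA hB).2 hAB
    · simpa using (commute_iff_sq hB hC).2 hBC
    · simpa using (commute_iff_sq hC hD).2 hCD
    · simpa using hAC
    · simpa using hBD
    · simpa using hAD
  · clear hA hB hC hD hAB hBC hCD hAC hBD hAD h2 hP A B C D
    intro Q _ h2 hP hR A B C D hr hS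
    simp only [Set.mem_ofPred_eq, forall_eq_or_imp, forall_eq, map_mul, map_pow,
      FreeGroup.lift_apply_of] at hr
    obtain ⟨hA, hB, hC, hD, hAB, hBC, hCD, hAC, hBD, hAD⟩ := hr
    change A * A = 1 at hA
    change B * B = 1 at hB
    change C * C = 1 at hC
    change D * D = 1 at hD
    change (A * B) ^ 2 = 1 at hAB
    change (B * C) ^ 2 = 1 at hBC
    change (C * D) ^ 2 = 1 at hCD
    change (A * C) ^ 4 = 1 at hAC
    change (B * D) ^ 4 = 1 at hBD
    change (A * D) ^ 4 = 1 at hAD
    replace hAB := (commute_iff_sq hA hB).1 hAB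
    replace hBC := (commute_iff_sq hB hC).1 hBC
    replace hCD := (commute_iff_sq hC hD).1 hCD
    have c1 : Commute B D := PL_step Q h2 hP hR hS (by
      intro g hg; simpa using hg) hA hB hC hD hAB hBC hCD hAC hBD hAD
    have c2 : Commute C A := PL_step Q h2 hP hR hS (A := D) (B := C) (C := B) (D := A) (by
      intro g hg
      rcases hg with h | h | h | h
      · exact Or.inr (Or.inr (Or.inr h))
      · exact Or.inr (Or.inr (Or.inl h))
      · exact Or.inr (Or.inl h)
      · exact Or.inl h) hD hC hB hA hCD.symm hBC.symm hAB.symm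
        (pow_swap hB hBD) (pow_swap hA hAC) (pow_swap hA hAD)
    have B1 : B = 1 := central_one' h2 hR hS (by
      rintro g (rfl | rfl | rfl | rfl)
      · exact hAB.symm
      · exact Commute.refl _
      · exact hBC
      · exact c1)
    have C1 : C = 1 := central_one' h2 hR hS (by
      rintro g (rfl | rfl | rfl | rfl)
      · exact c2
      · exact hBC.symm
      · exact Commute.refl _
      · exact hCD)
    apply fin_of_top hS (dih_fin h2 hA hD)
    rintro x (rfl | rfl | rfl | rfl)
    · exact subset_closure (by simp)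
    · rw [B1]; exact one_mem _
    · rw [C1]; exact one_mem _
    · exact subset_closure (by simp)

end Pool.Agent.H532G2
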