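import Pool.Agent.H532G2.Basic

set_option autoImplicit false

namespace Pool.Agent.H532G2

open Subgroup

section tools
variable {G : Type} [Group G]

theorem commute_of_closure {S : Set G} (hS : closure S = ⊤) {x : G}
    (h : ∀ g ∈ S, Commute x g) (g : G) : Commute x g := by
  have hg : g ∈ closure S := by rw [hS]; trivial
  induction hg using closure_induction with
  | mem y hy => exact h y hy
  | one => exact Commute.one_right x
  | mul a b _ _ ha hb => exact ha.mul_right hb
  | inv a _ ha => exact ha.inv_right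

theorem abel_one (h2 : IsPGroup 2 G) (hR : Red G) (N : Subgroup G) (hN : N.Normal)
    (hc : ∀ x ∈ N, ∀ y ∈ N, Commute x y) : N = ⊥ := by
  apply hR N hN
  intro s hs hsN
  letI : CommGroup (closure s) :=
    Subgroup.closureCommGroupOfComm (fun x hx y hy => hc x (hsN hx) y (hsN hy))
  have : Finite s := hs.to_subtype
  have : Group.FG (closure s) :=
    (Group.fg_iff_subgroup_fg _).2 ⟨hs.toFinset, by simp⟩
  have ht : Monoid.IsTorsion (closure s) := by
    intro x
    obtain ⟨k, hk⟩ := h2 (x : G)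
    rw [isOfFinOrder_iff_pow_eq_one]
    refine ⟨2 ^ k, by positivity, ?_⟩
    apply Subtype.ext
    simpa using hk
  have : Finite (closure s) := CommGroup.finite_of_fg_torsion _ ht
  exact Set.toFinite _

theorem central_one (h2 : IsPGroup 2 G) (hR : Red G) {x : G} (h : ∀ g, Commute x g) : x = 1 := by
  have hN : (zpowers x).Normal := by
    constructor
    rintro _ ⟨k, rfl⟩ g
    have : Commute (x ^ k) g := (h g).zpow_left k
    have e : g * x ^ k * g⁻¹ = x ^ k := by
      rw [← this.eq, mul_inv_cancel_right]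
    simp only [e]
    exact ⟨k, rfl⟩
  have := abel_one h2 hR (zpowers x) hN (by
    rintro _ ⟨k, rfl⟩ _ ⟨l, rfl⟩
    exact (Commute.refl x).zpow_zpow k l)
  exact zpowers_eq_bot.1 this

theorem central_one' (h2 : IsPGroup 2 G) (hR : Red G) {S : Set G} (hS : closure S = ⊤) {x : G}
    (h : ∀ g ∈ S, Commute x g) : x = 1 :=
  central_one h2 hR (commute_of_closure hS h)

theorem closure_comm {T : Set G} (hT : ∀ x ∈ T, ∀ y ∈ T, Commute x y) :
    ∀ x ∈ closure T, ∀ y ∈ closure T, Commute x y := by
  intro x hx y hy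
  induction hx using closure_induction with
  | mem x hx =>
    induction hy using closure_induction with
    | mem y hy => exact hT x hx y hy
    | one => exact Commute.one_right x
    | mul a b _ _ ha hb => exact ha.mul_right hb
    | inv a _ ha => exact ha.inv_right
  | one => exact Commute.one_left y
  | mul a b _ _ ha hb => exact ha.mul_left hb
  | inv a _ ha => exact ha.inv_left

theorem normal_of_gens {S T : Set G} (hS : closure S = ⊤) (hinv : ∀ g ∈ S, g * g = 1)
    (h : ∀ g ∈ S, ∀ t ∈ T, g * t * g ∈ closure T) : (closure T).Normal := by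
  have hi : ∀ g ∈ S, g⁻¹ = g := fun g hg => inv_eq_of_mul_eq_one_right (hinv g hg)
  have h1 : ∀ g ∈ S, ∀ n ∈ closure T, g * n * g⁻¹ ∈ closure T := by
    intro g hg n hn
    induction hn using closure_induction with
    | mem t ht => rw [hi g hg]; exact h g hg t ht
    | one => simp
    | mul a b _ _ ha hb =>
      have : g * (a * b) * g⁻¹ = (g * a * g⁻¹) * (g * b * g⁻¹) := by group
      rw [this]; exact mul_mem ha hb
    | inv a _ ha =>
      have : g * a⁻¹ * g⁻¹ = (g * a * g⁻¹)⁻¹ := by group
      rw [this]; exact inv_mem ha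
  have h2 : ∀ g ∈ closure S, ∀ n ∈ closure T, g * n * g⁻¹ ∈ closure T := by
    intro g hg
    have : ∀ n ∈ closure T, g * n * g⁻¹ ∈ closure T ∧ g⁻¹ * n * g ∈ closure T := by
      induction hg using closure_induction with
      | mem g hg =>
        intro n hn
        have := h1 g hg n hn
        refine ⟨this, ?_⟩
        have h3 := hi g hg
        rw [h3] at this ⊢
        exact this
      | one => intro n hn; simpa using hn
      | mul a b _ _ ha hb =>
        intro n hn
        constructor
        · have : (a * b) * n * (a * b)⁻¹ = a * (b * n * b⁻¹) * a⁻¹ := by group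
          rw [this]; exact (ha _ (hb n hn).1).1
        · have : (a * b)⁻¹ * n * (a * b) = b⁻¹ * (a⁻¹ * n * a) * b := by group
          rw [this]; exact (hb _ (ha n hn).2).2
      | inv a _ ha =>
        intro n hn
        constructor
        · have := (ha n hn).2
          simpa using this
        · have := (ha n hn).1
          simpa using this
    exact fun n hn => (this n hn).1
  constructor
  intro n hn g
  exact h2 g (by rw [hS]; trivial) n hn

theorem abel_gens_one (h2 : IsPGroup 2 G) (hR : Red G) {S T : Set G} (hS : closure S = ⊤)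
    (hinv : ∀ g ∈ S, g * g = 1)
    (h : ∀ g ∈ S, ∀ t ∈ T, g * t * g ∈ closure T)
    (hT : ∀ x ∈ T, ∀ y ∈ T, Commute x y) : ∀ t ∈ T, t = 1 := by
  have := abel_one h2 hR (closure T) (normal_of_gens hS hinv h) (closure_comm hT)
  intro t ht
  have h3 : t ∈ closure T := subset_closure ht
  rw [this] at h3
  exact h3

/-- extension of a finite subgroup by a normalising involution -/
theorem ext_invol (K : Subgroup G) (hK : (K : Set G).Finite) {c : G} (hc : c * c = 1)
    (hn : ∀ k ∈ K, c * k * c ∈ K) :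
    ∃ F : Subgroup G, (F : Set G).Finite ∧ K ≤ F ∧ c ∈ F := by
  have hcc : ∀ x : G, c * (c * x) = x := fun x => by rw [← mul_assoc, hc, one_mul]
  have hci : c⁻¹ = c := inv_eq_of_mul_eq_one_right hc
  let F : Subgroup G :=
    { carrier := {g | g ∈ K ∨ g * c ∈ K}
      one_mem' := Or.inl K.one_mem
      mul_mem' := by
        rintro a b (ha | ha) (hb | hb)
        · exact Or.inl (mul_mem ha hb)
        · right; rw [mul_assoc]; exact mul_mem ha hb
        · right
          have : a * b * c = (a * c) * (c * b * c) := by simp only [mul_assoc, hcc]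
          rw [this]; exact mul_mem ha (hn b hb)
        · left
          have : a * b = (a * c) * (c * (b * c) * c) := by
            simp only [mul_assoc, hcc, hc, mul_one]
          rw [this]; exact mul_mem ha (hn _ hb)
      inv_mem' := by
        rintro a (ha | ha)
        · exact Or.inl (inv_mem ha)
        · right
          have h3 := hn _ (inv_mem ha)
          rw [mul_inv_rev, hci] at h3
          have : c * (c * a⁻¹) * c = a⁻¹ * c := by rw [hcc]
          rw [this] at h3; exact h3 }
  refine ⟨F, ?_, fun x hx => Or.inl hx, Or.inr (by rw [hc]; exact K.one_mem)⟩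
  apply (hK.union (hK.image (fun k => k * c))).subset
  rintro g (hg | hg)
  · exact Or.inl hg
  · exact Or.inr ⟨g * c, hg, by simp [mul_assoc, hc]⟩

theorem finite_zpowers' (h2 : IsPGroup 2 G) (v : G) : ((zpowers v : Subgroup G) : Set G).Finite := by
  obtain ⟨k, hk⟩ := h2 v
  have : IsOfFinOrder v := isOfFinOrder_iff_pow_eq_one.2 ⟨2 ^ k, by positivity, hk⟩
  exact Set.finite_coe_iff.1 (by
    have := isOfFinOrder_iff_pow_eq_one.1 this
    exact (finite_zpowers.2 (isOfFinOrder_iff_pow_eq_one.2 this)).to_subtype)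

/-- dihedral groups are finite -/
theorem dih_fin (h2 : IsPGroup 2 G) {a b : G} (ha : a * a = 1) (hb : b * b = 1) :
    (closure {a, b} : Set G).Finite := by
  have hai : a⁻¹ = a := inv_eq_of_mul_eq_one_right ha
  have hbi : b⁻¹ = b := inv_eq_of_mul_eq_one_right hb
  obtain ⟨F, hF, hKF, hcF⟩ := ext_invol (zpowers (a * b)) (finite_zpowers' h2 _) ha (by
    rintro _ ⟨k, rfl⟩
    refine ⟨-k, ?_⟩
    simp only
    have h1 : a * (a * b) * a⁻¹ = (a * b)⁻¹ := by
      rw [mul_inv_rev, hai, hbi, ← mul_assoc, ha, one_mul]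
    have h3 : a * (a * b) ^ k * a⁻¹ = ((a * b)⁻¹) ^ k := by
      rw [← h1, conj_zpow]
    rw [hai] at h3
    rw [h3, inv_zpow, zpow_neg])
  apply hF.subset
  have : closure {a, b} ≤ F := by
    rw [closure_le]
    rintro x (rfl | rfl)
    · exact hcF
    · have h3 : a * (a * x) ∈ F := mul_mem hcF (hKF (mem_zpowers _))
      rw [← mul_assoc, ha, one_mul] at h3
      exact h3
  exact this

theorem commute_iff_sq {u v : G} (hu : u * u = 1) (hv : v * v = 1) :
    (u * v) ^ 2 = 1 ↔ Commute u v := by
  have hui : u⁻¹ = u := inv_eq_of_mul_eq_one_right hu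
  have hvi : v⁻¹ = v := inv_eq_of_mul_eq_one_right hv
  rw [pow_two, mul_eq_one_iff_eq_inv, mul_inv_rev, hui, hvi]
  exact Iff.rfl

theorem cm_invol {u v : G} (hu : u * u = 1) (hv : v * v = 1) : cm u v = (u * v) ^ 2 := by
  have hui : u⁻¹ = u := inv_eq_of_mul_eq_one_right hu
  have hvi : v⁻¹ = v := inv_eq_of_mul_eq_one_right hv
  unfold cm
  rw [hui, hvi, pow_two, mul_assoc]

theorem conj_l {u v : G} (hu : u * u = 1) (hv : v * v = 1) (n : ℕ) :
    u * (u * v) ^ n * u = ((u * v) ^ n)⁻¹ := by
  have hui : u⁻¹ = u := inv_eq_of_mul_eq_one_right hu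
  have hvi : v⁻¹ = v := inv_eq_of_mul_eq_one_right hv
  have h1 : u * (u * v) * u⁻¹ = (u * v)⁻¹ := by
    rw [mul_inv_rev, hui, hvi, ← mul_assoc, hu, one_mul]
  have h3 : u * (u * v) ^ n * u⁻¹ = ((u * v)⁻¹) ^ n := by
    rw [← h1, conj_pow]
  rw [hui] at h3
  rw [h3, inv_pow]

theorem conj_r {u v : G} (hu : u * u = 1) (hv : v * v = 1) (n : ℕ) :
    v * (u * v) ^ n * v = ((u * v) ^ n)⁻¹ := by
  have hui : u⁻¹ = u := inv_eq_of_mul_eq_one_right hu
  have hvi : v⁻¹ = v := inv_eq_of_mul_eq_one_right hv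
  have h1 : v * (u * v) * v⁻¹ = (u * v)⁻¹ := by
    rw [mul_inv_rev, hui, hvi, mul_assoc, mul_assoc, hv, mul_one]
  have h3 : v * (u * v) ^ n * v⁻¹ = ((u * v)⁻¹) ^ n := by
    rw [← h1, conj_pow]
  rw [hvi] at h3
  rw [h3, inv_pow]

/-- `(uv)^n` with square one commutes with `u` -/
theorem comm_l {u v : G} (hu : u * u = 1) (hv : v * v = 1) {n : ℕ}
    (h : (u * v) ^ n * (u * v) ^ n = 1) : Commute ((u * v) ^ n) u := by
  have h1 := conj_l hu hv n
  have h3 : ((u * v) ^ n)⁻¹ = (u * v) ^ n := inv_eq_of_mul_eq_one_right h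
  rw [h3] at h1
  have : (u * v) ^ n * u = u * (u * v) ^ n := by
    calc (u * v) ^ n * u = (u * u) * ((u * v) ^ n * u) := by rw [hu, one_mul]
      _ = u * (u * (u * v) ^ n * u) := by simp only [mul_assoc]
      _ = u * (u * v) ^ n := by rw [h1]
  exact this

theorem comm_r {u v : G} (hu : u * u = 1) (hv : v * v = 1) {n : ℕ}
    (h : (u * v) ^ n * (u * v) ^ n = 1) : Commute ((u * v) ^ n) v := by
  have h1 := conj_r hu hv n
  have h3 : ((u * v) ^ n)⁻¹ = (u * v) ^ n := inv_eq_of_mul_eq_one_right h
  rw [h3] at h1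
  have : (u * v) ^ n * v = v * (u * v) ^ n := by
    calc (u * v) ^ n * v = (v * v) * ((u * v) ^ n * v) := by rw [hv, one_mul]
      _ = v * (v * (u * v) ^ n * v) := by simp only [mul_assoc]
      _ = v * (u * v) ^ n := by rw [h1]
  exact this

/-- if `(uv)^n` commutes with `v` it has square one -/
theorem sq_of_comm {u v : G} (hu : u * u = 1) (hv : v * v = 1) {n : ℕ}
    (h : Commute ((u * v) ^ n) v) : (u * v) ^ n * (u * v) ^ n = 1 := by
  have h1 := conj_r hu hv n
  have h3 : v * (u * v) ^ n * v = (u * v) ^ n := by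
    rw [← h.eq, mul_assoc, hv, mul_one]
  rw [h3] at h1
  nth_rewrite 2 [h1]
  exact mul_inv_cancel _

theorem pp_use (hP : PP G) {S : Set G} (hS : (closure S : Set G).Finite) {x y z w : G}
    (hx : x ∈ closure S) (hy : y ∈ closure S) (hz : z ∈ closure S) (hw : w ∈ closure S) :
    Commute (cm (cm x y) z) w := cm_eq_one.1 (hP _ hS x hx y hy z hz w hw)

theorem pp_use' (hP : PP G) {F : Subgroup G} (hS : (F : Set G).Finite) {x y z w : G}
    (hx : x ∈ F) (hy : y ∈ F) (hz : z ∈ F) (hw : w ∈ F) :
    Commute (cm (cm x y) z) w := cm_eq_one.1 (hP _ hS x hx y hy z hz w hw)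

/-- product of two involutions has order dividing 8 -/
theorem pow8 (h2 : IsPGroup 2 G) (hP : PP G) {u v : G} (hu : u * u = 1) (hv : v * v = 1) :
    (u * v) ^ 8 = 1 := by
  have hui : u⁻¹ = u := inv_eq_of_mul_eq_one_right hu
  have hf := dih_fin h2 hu hv
  have hum : u ∈ closure {u, v} := subset_closure (by simp)
  have hvm : v ∈ closure {u, v} := subset_closure (by simp)
  have h := hP _ hf u hum v hvm u hum u hum
  rw [cm_invol hu hv] at h
  have e1 : cm ((u * v) ^ 2) u = (u * v) ^ 4 := by
    unfold cm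
    rw [hui]
    have h3 := conj_l hu hv 2
    calc (u * v) ^ 2 * u * ((u * v) ^ 2)⁻¹ * u
        = (u * v) ^ 2 * (u * ((u * v) ^ 2)⁻¹ * u) := by simp only [mul_assoc]
      _ = (u * v) ^ 2 * (u * (u * (u * v) ^ 2 * u) * u) := by rw [h3]
      _ = (u * v) ^ 2 * ((u * u) * (u * v) ^ 2 * (u * u)) := by simp only [mul_assoc]
      _ = (u * v) ^ 4 := by rw [hu, one_mul, mul_one, ← pow_add]
  have e2 : cm ((u * v) ^ 4) u = (u * v) ^ 8 := by
    unfold cm
    rw [hui]
    have h3 := conj_l hu hv 4
    calc (u * v) ^ 4 * u * ((u * v) ^ 4)⁻¹ * u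
        = (u * v) ^ 4 * (u * ((u * v) ^ 4)⁻¹ * u) := by simp only [mul_assoc]
      _ = (u * v) ^ 4 * (u * (u * (u * v) ^ 4 * u) * u) := by rw [h3]
      _ = (u * v) ^ 4 * ((u * u) * (u * v) ^ 4 * (u * u)) := by simp only [mul_assoc]
      _ = (u * v) ^ 8 := by rw [hu, one_mul, mul_one, ← pow_add]
  rw [e1, e2] at h
  exact h

end tools

end Pool.Agent.H532G2
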